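import Pool.Agent.Helper79.CV.Link

/-!
MP_8ee768_co, project TH-Y': coding of families of `k`-subsets of `Fin 13` by natural numbers.

Bit `i` of `enc k B` says whether the `i`-th `k`-set in colex order (= in the increasing order of the bit
masks) belongs to `B`. `msk k i` is its mask, `ksub k i` the set, `rk s` the index of a set `s`.
The `k`-subsets of `{0, ..., n - 1}` are exactly the first `choose n k` indices. The link of the
last point `12` is the number `enc 5 B >>> 792` (`enc_link`).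
-/

set_option autoImplicit false

namespace Pool.Agent.Helper99.TY

open Finset Pool.Agent.Helper89.CV Pool.Agent.Helper97.CV Pool.Agent.Helper79.CV

/-- masks of the 5-subsets of `{0, ..., 12}` -/
def M5 : List ℕ :=
  [31, 47, 55, 59, 61, 62, 79, 87, 91, 93, 94, 103, 107, 109, 110, 115, 117, 118, 121, 122, 124,
   143, 151, 155, 157, 158, 167, 171, 173, 174, 179, 181, 182, 185, 186, 188, 199, 203, 205, 206,
   211, 213, 214, 217, 218, 220, 227, 229, 230, 233, 234, 236, 241, 242, 244, 248, 271, 279, 283,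
   285, 286, 295, 299, 301, 302, 307, 309, 310, 313, 314, 316, 327, 331, 333, 334, 339, 341, 342,
   345, 346, 348, 355, 357, 358, 361, 362, 364, 369, 370, 372, 376, 391, 395, 397, 398, 403, 405,
   406, 409, 410, 412, 419, 421, 422, 425, 426, 428, 433, 434, 436, 440, 451, 453, 454, 457, 458,
   460, 465, 466, 468, 472, 481, 482, 484, 488, 496, 527, 535, 539, 541, 542, 551, 555, 557, 558,
   563, 565, 566, 569, 570, 572, 583, 587, 589, 590, 595, 597, 598, 601, 602, 604, 611, 613, 614,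
   617, 618, 620, 625, 626, 628, 632, 647, 651, 653, 654, 659, 661, 662, 665, 666, 668, 675, 677,
   678, 681, 682, 684, 689, 690, 692, 696, 707, 709, 710, 713, 714, 716, 721, 722, 724, 728, 737,
   738, 740, 744, 752, 775, 779, 781, 782, 787, 789, 790, 793, 794, 796, 803, 805, 806, 809, 810,
   812, 817, 818, 820, 824, 835, 837, 838, 841, 842, 844, 849, 850, 852, 856, 865, 866, 868, 872,
   880, 899, 901, 902, 905, 906, 908, 913, 914, 916, 920, 929, 930, 932, 936, 944, 961, 962, 964,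
   968, 976, 992, 1039, 1047, 1051, 1053, 1054, 1063, 1067, 1069, 1070, 1075, 1077, 1078, 1081,
   1082, 1084, 1095, 1099, 1101, 1102, 1107, 1109, 1110, 1113, 1114, 1116, 1123, 1125, 1126, 1129,
   1130, 1132, 1137, 1138, 1140, 1144, 1159, 1163, 1165, 1166, 1171, 1173, 1174, 1177, 1178, 1180,
   1187, 1189, 1190, 1193, 1194, 1196, 1201, 1202, 1204, 1208, 1219, 1221, 1222, 1225, 1226, 1228,
   1233, 1234, 1236, 1240, 1249, 1250, 1252, 1256, 1264, 1287, 1291, 1293, 1294, 1299, 1301, 1302,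
   1305, 1306, 1308, 1315, 1317, 1318, 1321, 1322, 1324, 1329, 1330, 1332, 1336, 1347, 1349, 1350,
   1353, 1354, 1356, 1361, 1362, 1364, 1368, 1377, 1378, 1380, 1384, 1392, 1411, 1413, 1414, 1417,
   1418, 1420, 1425, 1426, 1428, 1432, 1441, 1442, 1444, 1448, 1456, 1473, 1474, 1476, 1480, 1488,
   1504, 1543, 1547, 1549, 1550, 1555, 1557, 1558, 1561, 1562, 1564, 1571, 1573, 1574, 1577, 1578,
   1580, 1585, 1586, 1588, 1592, 1603, 1605, 1606, 1609, 1610, 1612, 1617, 1618, 1620, 1624, 1633,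
   1634, 1636, 1640, 1648, 1667, 1669, 1670, 1673, 1674, 1676, 1681, 1682, 1684, 1688, 1697, 1698,
   1700, 1704, 1712, 1729, 1730, 1732, 1736, 1744, 1760, 1795, 1797, 1798, 1801, 1802, 1804, 1809,
   1810, 1812, 1816, 1825, 1826, 1828, 1832, 1840, 1857, 1858, 1860, 1864, 1872, 1888, 1921, 1922,
   1924, 1928, 1936, 1952, 1984, 2063, 2071, 2075, 2077, 2078, 2087, 2091, 2093, 2094, 2099, 2101,
   2102, 2105, 2106, 2108, 2119, 2123, 2125, 2126, 2131, 2133, 2134, 2137, 2138, 2140, 2147, 2149,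
   2150, 2153, 2154, 2156, 2161, 2162, 2164, 2168, 2183, 2187, 2189, 2190, 2195, 2197, 2198, 2201,
   2202, 2204, 2211, 2213, 2214, 2217, 2218, 2220, 2225, 2226, 2228, 2232, 2243, 2245, 2246, 2249,
   2250, 2252, 2257, 2258, 2260, 2264, 2273, 2274, 2276, 2280, 2288, 2311, 2315, 2317, 2318, 2323,
   2325, 2326, 2329, 2330, 2332, 2339, 2341, 2342, 2345, 2346, 2348, 2353, 2354, 2356, 2360, 2371,
   2373, 2374, 2377, 2378, 2380, 2385, 2386, 2388, 2392, 2401, 2402, 2404, 2408, 2416, 2435, 2437,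
   2438, 2441, 2442, 2444, 2449, 2450, 2452, 2456, 2465, 2466, 2468, 2472, 2480, 2497, 2498, 2500,
   2504, 2512, 2528, 2567, 2571, 2573, 2574, 2579, 2581, 2582, 2585, 2586, 2588, 2595, 2597, 2598,
   2601, 2602, 2604, 2609, 2610, 2612, 2616, 2627, 2629, 2630, 2633, 2634, 2636, 2641, 2642, 2644,
   2648, 2657, 2658, 2660, 2664, 2672, 2691, 2693, 2694, 2697, 2698, 2700, 2705, 2706, 2708, 2712,
   2721, 2722, 2724, 2728, 2736, 2753, 2754, 2756, 2760, 2768, 2784, 2819, 2821, 2822, 2825, 2826,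
   2828, 2833, 2834, 2836, 2840, 2849, 2850, 2852, 2856, 2864, 2881, 2882, 2884, 2888, 2896, 2912,
   2945, 2946, 2948, 2952, 2960, 2976, 3008, 3079, 3083, 3085, 3086, 3091, 3093, 3094, 3097, 3098,
   3100, 3107, 3109, 3110, 3113, 3114, 3116, 3121, 3122, 3124, 3128, 3139, 3141, 3142, 3145, 3146,
   3148, 3153, 3154, 3156, 3160, 3169, 3170, 3172, 3176, 3184, 3203, 3205, 3206, 3209, 3210, 3212,
   3217, 3218, 3220, 3224, 3233, 3234, 3236, 3240, 3248, 3265, 3266, 3268, 3272, 3280, 3296, 3331,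
   3333, 3334, 3337, 3338, 3340, 3345, 3346, 3348, 3352, 3361, 3362, 3364, 3368, 3376, 3393, 3394,
   3396, 3400, 3408, 3424, 3457, 3458, 3460, 3464, 3472, 3488, 3520, 3587, 3589, 3590, 3593, 3594,
   3596, 3601, 3602, 3604, 3608, 3617, 3618, 3620, 3624, 3632, 3649, 3650, 3652, 3656, 3664, 3680,
   3713, 3714, 3716, 3720, 3728, 3744, 3776, 3841, 3842, 3844, 3848, 3856, 3872, 3904, 3968, 4111,
   4119, 4123, 4125, 4126, 4135, 4139, 4141, 4142, 4147, 4149, 4150, 4153, 4154, 4156, 4167, 4171,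
   4173, 4174, 4179, 4181, 4182, 4185, 4186, 4188, 4195, 4197, 4198, 4201, 4202, 4204, 4209, 4210,
   4212, 4216, 4231, 4235, 4237, 4238, 4243, 4245, 4246, 4249, 4250, 4252, 4259, 4261, 4262, 4265,
   4266, 4268, 4273, 4274, 4276, 4280, 4291, 4293, 4294, 4297, 4298, 4300, 4305, 4306, 4308, 4312,
   4321, 4322, 4324, 4328, 4336, 4359, 4363, 4365, 4366, 4371, 4373, 4374, 4377, 4378, 4380, 4387,
   4389, 4390, 4393, 4394, 4396, 4401, 4402, 4404, 4408, 4419, 4421, 4422, 4425, 4426, 4428, 4433,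
   4434, 4436, 4440, 4449, 4450, 4452, 4456, 4464, 4483, 4485, 4486, 4489, 4490, 4492, 4497, 4498,
   4500, 4504, 4513, 4514, 4516, 4520, 4528, 4545, 4546, 4548, 4552, 4560, 4576, 4615, 4619, 4621,
   4622, 4627, 4629, 4630, 4633, 4634, 4636, 4643, 4645, 4646, 4649, 4650, 4652, 4657, 4658, 4660,
   4664, 4675, 4677, 4678, 4681, 4682, 4684, 4689, 4690, 4692, 4696, 4705, 4706, 4708, 4712, 4720,
   4739, 4741, 4742, 4745, 4746, 4748, 4753, 4754, 4756, 4760, 4769, 4770, 4772, 4776, 4784, 4801,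
   4802, 4804, 4808, 4816, 4832, 4867, 4869, 4870, 4873, 4874, 4876, 4881, 4882, 4884, 4888, 4897,
   4898, 4900, 4904, 4912, 4929, 4930, 4932, 4936, 4944, 4960, 4993, 4994, 4996, 5000, 5008, 5024,
   5056, 5127, 5131, 5133, 5134, 5139, 5141, 5142, 5145, 5146, 5148, 5155, 5157, 5158, 5161, 5162,
   5164, 5169, 5170, 5172, 5176, 5187, 5189, 5190, 5193, 5194, 5196, 5201, 5202, 5204, 5208, 5217,
   5218, 5220, 5224, 5232, 5251, 5253, 5254, 5257, 5258, 5260, 5265, 5266, 5268, 5272, 5281, 5282,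
   5284, 5288, 5296, 5313, 5314, 5316, 5320, 5328, 5344, 5379, 5381, 5382, 5385, 5386, 5388, 5393,
   5394, 5396, 5400, 5409, 5410, 5412, 5416, 5424, 5441, 5442, 5444, 5448, 5456, 5472, 5505, 5506,
   5508, 5512, 5520, 5536, 5568, 5635, 5637, 5638, 5641, 5642, 5644, 5649, 5650, 5652, 5656, 5665,
   5666, 5668, 5672, 5680, 5697, 5698, 5700, 5704, 5712, 5728, 5761, 5762, 5764, 5768, 5776, 5792,
   5824, 5889, 5890, 5892, 5896, 5904, 5920, 5952, 6016, 6151, 6155, 6157, 6158, 6163, 6165, 6166,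
   6169, 6170, 6172, 6179, 6181, 6182, 6185, 6186, 6188, 6193, 6194, 6196, 6200, 6211, 6213, 6214,
   6217, 6218, 6220, 6225, 6226, 6228, 6232, 6241, 6242, 6244, 6248, 6256, 6275, 6277, 6278, 6281,
   6282, 6284, 6289, 6290, 6292, 6296, 6305, 6306, 6308, 6312, 6320, 6337, 6338, 6340, 6344, 6352,
   6368, 6403, 6405, 6406, 6409, 6410, 6412, 6417, 6418, 6420, 6424, 6433, 6434, 6436, 6440, 6448,
   6465, 6466, 6468, 6472, 6480, 6496, 6529, 6530, 6532, 6536, 6544, 6560, 6592, 6659, 6661, 6662,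
   6665, 6666, 6668, 6673, 6674, 6676, 6680, 6689, 6690, 6692, 6696, 6704, 6721, 6722, 6724, 6728,
   6736, 6752, 6785, 6786, 6788, 6792, 6800, 6816, 6848, 6913, 6914, 6916, 6920, 6928, 6944, 6976,
   7040, 7171, 7173, 7174, 7177, 7178, 7180, 7185, 7186, 7188, 7192, 7201, 7202, 7204, 7208, 7216,
   7233, 7234, 7236, 7240, 7248, 7264, 7297, 7298, 7300, 7304, 7312, 7328, 7360, 7425, 7426, 7428,
   7432, 7440, 7456, 7488, 7552, 7681, 7682, 7684, 7688, 7696, 7712, 7744, 7808, 7936]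

/-- masks of the 4-subsets -/
def M4 : List ℕ :=
  [15, 23, 27, 29, 30, 39, 43, 45, 46, 51, 53, 54, 57, 58, 60, 71, 75, 77, 78, 83, 85, 86, 89, 90,
   92, 99, 101, 102, 105, 106, 108, 113, 114, 116, 120, 135, 139, 141, 142, 147, 149, 150, 153,
   154, 156, 163, 165, 166, 169, 170, 172, 177, 178, 180, 184, 195, 197, 198, 201, 202, 204, 209,
   210, 212, 216, 225, 226, 228, 232, 240, 263, 267, 269, 270, 275, 277, 278, 281, 282, 284, 291,
   293, 294, 297, 298, 300, 305, 306, 308, 312, 323, 325, 326, 329, 330, 332, 337, 338, 340, 344,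
   353, 354, 356, 360, 368, 387, 389, 390, 393, 394, 396, 401, 402, 404, 408, 417, 418, 420, 424,
   432, 449, 450, 452, 456, 464, 480, 519, 523, 525, 526, 531, 533, 534, 537, 538, 540, 547, 549,
   550, 553, 554, 556, 561, 562, 564, 568, 579, 581, 582, 585, 586, 588, 593, 594, 596, 600, 609,
   610, 612, 616, 624, 643, 645, 646, 649, 650, 652, 657, 658, 660, 664, 673, 674, 676, 680, 688,
   705, 706, 708, 712, 720, 736, 771, 773, 774, 777, 778, 780, 785, 786, 788, 792, 801, 802, 804,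
   808, 816, 833, 834, 836, 840, 848, 864, 897, 898, 900, 904, 912, 928, 960, 1031, 1035, 1037,
   1038, 1043, 1045, 1046, 1049, 1050, 1052, 1059, 1061, 1062, 1065, 1066, 1068, 1073, 1074, 1076,
   1080, 1091, 1093, 1094, 1097, 1098, 1100, 1105, 1106, 1108, 1112, 1121, 1122, 1124, 1128, 1136,
   1155, 1157, 1158, 1161, 1162, 1164, 1169, 1170, 1172, 1176, 1185, 1186, 1188, 1192, 1200, 1217,
   1218, 1220, 1224, 1232, 1248, 1283, 1285, 1286, 1289, 1290, 1292, 1297, 1298, 1300, 1304, 1313,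
   1314, 1316, 1320, 1328, 1345, 1346, 1348, 1352, 1360, 1376, 1409, 1410, 1412, 1416, 1424, 1440,
   1472, 1539, 1541, 1542, 1545, 1546, 1548, 1553, 1554, 1556, 1560, 1569, 1570, 1572, 1576, 1584,
   1601, 1602, 1604, 1608, 1616, 1632, 1665, 1666, 1668, 1672, 1680, 1696, 1728, 1793, 1794, 1796,
   1800, 1808, 1824, 1856, 1920, 2055, 2059, 2061, 2062, 2067, 2069, 2070, 2073, 2074, 2076, 2083,
   2085, 2086, 2089, 2090, 2092, 2097, 2098, 2100, 2104, 2115, 2117, 2118, 2121, 2122, 2124, 2129,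
   2130, 2132, 2136, 2145, 2146, 2148, 2152, 2160, 2179, 2181, 2182, 2185, 2186, 2188, 2193, 2194,
   2196, 2200, 2209, 2210, 2212, 2216, 2224, 2241, 2242, 2244, 2248, 2256, 2272, 2307, 2309, 2310,
   2313, 2314, 2316, 2321, 2322, 2324, 2328, 2337, 2338, 2340, 2344, 2352, 2369, 2370, 2372, 2376,
   2384, 2400, 2433, 2434, 2436, 2440, 2448, 2464, 2496, 2563, 2565, 2566, 2569, 2570, 2572, 2577,
   2578, 2580, 2584, 2593, 2594, 2596, 2600, 2608, 2625, 2626, 2628, 2632, 2640, 2656, 2689, 2690,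
   2692, 2696, 2704, 2720, 2752, 2817, 2818, 2820, 2824, 2832, 2848, 2880, 2944, 3075, 3077, 3078,
   3081, 3082, 3084, 3089, 3090, 3092, 3096, 3105, 3106, 3108, 3112, 3120, 3137, 3138, 3140, 3144,
   3152, 3168, 3201, 3202, 3204, 3208, 3216, 3232, 3264, 3329, 3330, 3332, 3336, 3344, 3360, 3392,
   3456, 3585, 3586, 3588, 3592, 3600, 3616, 3648, 3712, 3840, 4103, 4107, 4109, 4110, 4115, 4117,
   4118, 4121, 4122, 4124, 4131, 4133, 4134, 4137, 4138, 4140, 4145, 4146, 4148, 4152, 4163, 4165,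
   4166, 4169, 4170, 4172, 4177, 4178, 4180, 4184, 4193, 4194, 4196, 4200, 4208, 4227, 4229, 4230,
   4233, 4234, 4236, 4241, 4242, 4244, 4248, 4257, 4258, 4260, 4264, 4272, 4289, 4290, 4292, 4296,
   4304, 4320, 4355, 4357, 4358, 4361, 4362, 4364, 4369, 4370, 4372, 4376, 4385, 4386, 4388, 4392,
   4400, 4417, 4418, 4420, 4424, 4432, 4448, 4481, 4482, 4484, 4488, 4496, 4512, 4544, 4611, 4613,
   4614, 4617, 4618, 4620, 4625, 4626, 4628, 4632, 4641, 4642, 4644, 4648, 4656, 4673, 4674, 4676,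
   4680, 4688, 4704, 4737, 4738, 4740, 4744, 4752, 4768, 4800, 4865, 4866, 4868, 4872, 4880, 4896,
   4928, 4992, 5123, 5125, 5126, 5129, 5130, 5132, 5137, 5138, 5140, 5144, 5153, 5154, 5156, 5160,
   5168, 5185, 5186, 5188, 5192, 5200, 5216, 5249, 5250, 5252, 5256, 5264, 5280, 5312, 5377, 5378,
   5380, 5384, 5392, 5408, 5440, 5504, 5633, 5634, 5636, 5640, 5648, 5664, 5696, 5760, 5888, 6147,
   6149, 6150, 6153, 6154, 6156, 6161, 6162, 6164, 6168, 6177, 6178, 6180, 6184, 6192, 6209, 6210,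
   6212, 6216, 6224, 6240, 6273, 6274, 6276, 6280, 6288, 6304, 6336, 6401, 6402, 6404, 6408, 6416,
   6432, 6464, 6528, 6657, 6658, 6660, 6664, 6672, 6688, 6720, 6784, 6912, 7169, 7170, 7172, 7176,
   7184, 7200, 7232, 7296, 7424, 7680]

/-- masks of the 3-subsets -/
def M3 : List ℕ :=
  [7, 11, 13, 14, 19, 21, 22, 25, 26, 28, 35, 37, 38, 41, 42, 44, 49, 50, 52, 56, 67, 69, 70, 73,
   74, 76, 81, 82, 84, 88, 97, 98, 100, 104, 112, 131, 133, 134, 137, 138, 140, 145, 146, 148,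
   152, 161, 162, 164, 168, 176, 193, 194, 196, 200, 208, 224, 259, 261, 262, 265, 266, 268, 273,
   274, 276, 280, 289, 290, 292, 296, 304, 321, 322, 324, 328, 336, 352, 385, 386, 388, 392, 400,
   416, 448, 515, 517, 518, 521, 522, 524, 529, 530, 532, 536, 545, 546, 548, 552, 560, 577, 578,
   580, 584, 592, 608, 641, 642, 644, 648, 656, 672, 704, 769, 770, 772, 776, 784, 800, 832, 896,
   1027, 1029, 1030, 1033, 1034, 1036, 1041, 1042, 1044, 1048, 1057, 1058, 1060, 1064, 1072, 1089,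
   1090, 1092, 1096, 1104, 1120, 1153, 1154, 1156, 1160, 1168, 1184, 1216, 1281, 1282, 1284, 1288,
   1296, 1312, 1344, 1408, 1537, 1538, 1540, 1544, 1552, 1568, 1600, 1664, 1792, 2051, 2053, 2054,
   2057, 2058, 2060, 2065, 2066, 2068, 2072, 2081, 2082, 2084, 2088, 2096, 2113, 2114, 2116, 2120,
   2128, 2144, 2177, 2178, 2180, 2184, 2192, 2208, 2240, 2305, 2306, 2308, 2312, 2320, 2336, 2368,
   2432, 2561, 2562, 2564, 2568, 2576, 2592, 2624, 2688, 2816, 3073, 3074, 3076, 3080, 3088, 3104,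
   3136, 3200, 3328, 3584, 4099, 4101, 4102, 4105, 4106, 4108, 4113, 4114, 4116, 4120, 4129, 4130,
   4132, 4136, 4144, 4161, 4162, 4164, 4168, 4176, 4192, 4225, 4226, 4228, 4232, 4240, 4256, 4288,
   4353, 4354, 4356, 4360, 4368, 4384, 4416, 4480, 4609, 4610, 4612, 4616, 4624, 4640, 4672, 4736,
   4864, 5121, 5122, 5124, 5128, 5136, 5152, 5184, 5248, 5376, 5632, 6145, 6146, 6148, 6152, 6160,
   6176, 6208, 6272, 6400, 6656, 7168]

/-- masks of the 2-subsets -/
def M2 : List ℕ :=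
  [3, 5, 6, 9, 10, 12, 17, 18, 20, 24, 33, 34, 36, 40, 48, 65, 66, 68, 72, 80, 96, 129, 130, 132,
   136, 144, 160, 192, 257, 258, 260, 264, 272, 288, 320, 384, 513, 514, 516, 520, 528, 544, 576,
   640, 768, 1025, 1026, 1028, 1032, 1040, 1056, 1088, 1152, 1280, 1536, 2049, 2050, 2052, 2056,
   2064, 2080, 2112, 2176, 2304, 2560, 3072, 4097, 4098, 4100, 4104, 4112, 4128, 4160, 4224, 4352,
   4608, 5120, 6144]

/-- the masks of the `k`-subsets, `2 ≤ k ≤ 5` -/
def msks (k : ℕ) : List ℕ :=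
  match k with
  | 2 => M2
  | 3 => M3
  | 4 => M4
  | 5 => M5
  | _ => []

/-- strictly increasing list -/
def incr : List ℕ → Bool
  | [] => true
  | a :: l => (match l with
      | [] => true
      | b :: _ => Nat.blt a b) && incr l

theorem incr_pairwise : ∀ l : List ℕ, incr l = true → l.Pairwise (· < ·)
  | [], _ => List.Pairwise.nil
  | [a], _ => List.pairwise_singleton _ a
  | a :: b :: l, h => by
    unfold incr at h
    rw [Bool.and_eq_true] at h
    have h1 : a < b := Nat.le_of_ble_eq_true h.1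
    have h2 := incr_pairwise (b :: l) h.2
    refine List.Pairwise.cons ?_ h2
    intro c hc
    rcases List.mem_cons.1 hc with rfl | hc
    · exact h1
    · exact h1.trans (List.rel_of_pairwise_cons h2 hc)

theorem msks_all (k : ℕ) (hk : 2 ≤ k ∧ k ≤ 5) : (msks k).all (fun m => pc m == k && Nat.blt m 8192) = true := by
  obtain ⟨h1, h2⟩ := hk
  interval_cases k
  · decide +kernel
  · decide +kernel
  · decide +kernel
  · decide +kernel

theorem msks_incr (k : ℕ) (hk : 2 ≤ k ∧ k ≤ 5) : incr (msks k) = true := by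
  obtain ⟨h1, h2⟩ := hk
  interval_cases k
  · decide +kernel
  · decide +kernel
  · decide +kernel
  · decide +kernel

theorem msks_length (k : ℕ) (hk : 2 ≤ k ∧ k ≤ 5) : (msks k).length = Nat.choose 13 k := by
  obtain ⟨h1, h2⟩ := hk
  interval_cases k
  · decide +kernel
  · decide +kernel
  · decide +kernel
  · decide +kernel

/-- the mask of the `i`-th `k`-set -/
def msk (k i : ℕ) : ℕ := (msks k).getD i 0

/-- the `i`-th `k`-set -/
def ksub (k i : ℕ) : Finset (Fin 13) := ofMask (msk k i)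

theorem mem_ofMask {m : ℕ} {a : Fin 13} : a ∈ ofMask m ↔ m.testBit a.val = true := by
  unfold ofMask
  rw [mem_filter]
  exact ⟨fun h => h.2, fun h => ⟨mem_univ _, h⟩⟩

theorem ofMask_inj {m n : ℕ} (hm : m < 8192) (hn : n < 8192) (h : ofMask m = ofMask n) : m = n := by
  refine Nat.eq_of_testBit_eq fun j => ?_
  by_cases hj : j < 13
  · have h1 : (⟨j, hj⟩ : Fin 13) ∈ ofMask m ↔ (⟨j, hj⟩ : Fin 13) ∈ ofMask n := by rw [h]
    rw [mem_ofMask, mem_ofMask] at h1
    exact Bool.eq_iff_iff.2 h1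
  · have h2 : 8192 ≤ 2 ^ j := by
      calc 8192 = 2 ^ 13 := by norm_num
        _ ≤ 2 ^ j := Nat.pow_le_pow_right (by norm_num) (by omega)
    rw [Nat.testBit_lt_two_pow (lt_of_lt_of_le hm h2), Nat.testBit_lt_two_pow (lt_of_lt_of_le hn h2)]

variable {k : ℕ}

theorem msk_mem (hk : 2 ≤ k ∧ k ≤ 5) {i : ℕ} (hi : i < Nat.choose 13 k) : msk k i ∈ msks k := by
  unfold msk
  rw [← msks_length k hk] at hi
  rw [List.getD_eq_getElem _ _ hi]
  exact List.getElem_mem hi

theorem msk_pc (hk : 2 ≤ k ∧ k ≤ 5) {i : ℕ} (hi : i < Nat.choose 13 k) :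
    pc (msk k i) = k ∧ msk k i < 8192 := by
  have h := List.all_eq_true.1 (msks_all k hk) _ (msk_mem hk hi)
  rw [Bool.and_eq_true] at h
  exact ⟨beq_iff_eq.1 h.1, Nat.le_of_ble_eq_true h.2⟩

theorem msk_lt_msk (hk : 2 ≤ k ∧ k ≤ 5) {i j : ℕ} (hij : i < j) (hj : j < Nat.choose 13 k) :
    msk k i < msk k j := by
  unfold msk
  rw [← msks_length k hk] at hj
  rw [List.getD_eq_getElem _ _ hj, List.getD_eq_getElem _ _ (hij.trans hj)]
  exact List.pairwise_iff_getElem.1 (incr_pairwise _ (msks_incr k hk)) i j _ _ hij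

theorem ksub_card (hk : 2 ≤ k ∧ k ≤ 5) {i : ℕ} (hi : i < Nat.choose 13 k) :
    (ksub k i).card = k := by
  unfold ksub
  rw [ofMask_card]
  exact (msk_pc hk hi).1

theorem ksub_inj (hk : 2 ≤ k ∧ k ≤ 5) {i j : ℕ} (hi : i < Nat.choose 13 k)
    (hj : j < Nat.choose 13 k) (h : ksub k i = ksub k j) : i = j := by
  have h1 := ofMask_inj (msk_pc hk hi).2 (msk_pc hk hj).2 h
  rcases lt_trichotomy i j with h2 | h2 | h2
  · exact absurd h1 (msk_lt_msk hk h2 hj).ne
  · exact h2
  · exact absurd h1 (msk_lt_msk hk h2 hi).ne'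

theorem exists_ksub (hk : 2 ≤ k ∧ k ≤ 5) {s : Finset (Fin 13)} (hs : s.card = k) :
    ∃ i < Nat.choose 13 k, ksub k i = s := by
  have h1 : (range (Nat.choose 13 k)).image (ksub k) = powersetCard k univ := by
    refine eq_of_subset_of_card_le ?_ ?_
    · intro t ht
      obtain ⟨i, hi, rfl⟩ := mem_image.1 ht
      exact mem_powersetCard.2 ⟨subset_univ _, ksub_card hk (mem_range.1 hi)⟩
    · rw [card_image_of_injOn, card_range, card_powersetCard, card_univ, Fintype.card_fin]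
      intro i hi j hj h
      rw [mem_coe, mem_range] at hi hj
      exact ksub_inj hk hi hj h
  have h2 : s ∈ (range (Nat.choose 13 k)).image (ksub k) := by
    rw [h1]
    exact mem_powersetCard.2 ⟨subset_univ _, hs⟩
  obtain ⟨i, hi, h3⟩ := mem_image.1 h2
  exact ⟨i, mem_range.1 hi, h3⟩

/-- the code of a family of `k`-sets -/
def enc (k : ℕ) (B : Finset (Finset (Fin 13))) : ℕ :=
  Nat.ofBits (n := Nat.choose 13 k) fun i => decide (ksub k i ∈ B)

theorem testBit_enc (k : ℕ) (B : Finset (Finset (Fin 13))) (i : ℕ) :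
    (enc k B).testBit i = true ↔ i < Nat.choose 13 k ∧ ksub k i ∈ B := by
  unfold enc
  rw [Nat.testBit_ofBits]
  by_cases h : i < Nat.choose 13 k
  · rw [dif_pos h, decide_eq_true_iff]
    exact ⟨fun h1 => ⟨h, h1⟩, fun h1 => h1.2⟩
  · rw [dif_neg h]
    exact ⟨fun h1 => absurd h1 (by decide), fun h1 => absurd h1.1 h⟩

theorem enc_lt (k : ℕ) (B : Finset (Finset (Fin 13))) : enc k B < 2 ^ Nat.choose 13 k :=
  Nat.ofBits_lt_two_pow _

/-- families of `k`-sets with the same code are equal -/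
theorem enc_inj (hk : 2 ≤ k ∧ k ≤ 5) {A B : Finset (Finset (Fin 13))}
    (hA : ∀ b ∈ A, b.card = k) (hB : ∀ b ∈ B, b.card = k) (h : enc k A = enc k B) : A = B := by
  ext s
  constructor
  · intro hs
    obtain ⟨i, hi, rfl⟩ := exists_ksub hk (hA s hs)
    have h1 := (testBit_enc k A i).2 ⟨hi, hs⟩
    rw [h] at h1
    exact ((testBit_enc k B i).1 h1).2
  · intro hs
    obtain ⟨i, hi, rfl⟩ := exists_ksub hk (hB s hs)
    have h1 := (testBit_enc k B i).2 ⟨hi, hs⟩
    rw [← h] at h1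
    exact ((testBit_enc k A i).1 h1).2

/-- the number whose bit `i` is `p (l[i])` -/
def mkm (p : ℕ → Bool) : List ℕ → ℕ
  | [] => 0
  | a :: l => 2 * mkm p l + (p a).toNat

theorem testBit_mkm (p : ℕ → Bool) : ∀ (l : List ℕ) (i : ℕ),
    (mkm p l).testBit i = true ↔ i < l.length ∧ p (l.getD i 0) = true
  | [], i => by
    unfold mkm
    rw [Nat.zero_testBit]
    simp
  | a :: l, 0 => by
    unfold mkm
    rw [Nat.testBit_zero]
    cases h : p a <;> simp [h]
  | a :: l, i + 1 => by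
    unfold mkm
    rw [Nat.testBit_succ]
    have h1 : (2 * mkm p l + (p a).toNat) / 2 = mkm p l := by
      have h2 := Bool.toNat_lt (p a)
      omega
    rw [h1, testBit_mkm p l i, List.length_cons, List.getD_cons_succ, Nat.add_lt_add_iff_right]

/-- the code of the family of all `k`-sets whose mask satisfies `p` -/
def fam (k : ℕ) (p : ℕ → Bool) : ℕ := mkm p (msks k)

theorem testBit_fam (hk : 2 ≤ k ∧ k ≤ 5) (p : ℕ → Bool) (i : ℕ) :
    (fam k p).testBit i = true ↔ i < Nat.choose 13 k ∧ p (msk k i) = true := by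
  unfold fam
  rw [testBit_mkm, msks_length k hk]
  rfl

/-- a filtered family: AND with a mask -/
theorem enc_filter (hk : 2 ≤ k ∧ k ≤ 5) (B : Finset (Finset (Fin 13))) (p : ℕ → Bool)
    (P : Finset (Fin 13) → Prop) [DecidablePred P]
    (h : ∀ i < Nat.choose 13 k, p (msk k i) = true ↔ P (ksub k i)) :
    enc k (B.filter P) = enc k B &&& fam k p := by
  refine Nat.eq_of_testBit_eq fun i => Bool.eq_iff_iff.2 ?_
  rw [Nat.testBit_and, Bool.and_eq_true, testBit_enc, testBit_enc, testBit_fam hk, mem_filter]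
  constructor
  · rintro ⟨h1, h2, h3⟩
    exact ⟨⟨h1, h2⟩, h1, (h i h1).2 h3⟩
  · rintro ⟨⟨h1, h2⟩, _, h3⟩
    exact ⟨h1, h2, (h i h1).1 h3⟩

/-- sets containing the points with bits in `c` and no point with bits in `d` (masks) -/
def pin (c d m : ℕ) : Bool := Nat.beq (m &&& c) c && Nat.beq (m &&& d) 0

theorem mem_ksub {i : ℕ} {a : Fin 13} : a ∈ ksub k i ↔ (msk k i).testBit a.val = true := mem_ofMask

theorem land_two_pow_eq (m a : ℕ) : m &&& 2 ^ a = 2 ^ a ↔ m.testBit a = true := by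
  constructor
  · intro h
    have h1 : (m &&& 2 ^ a).testBit a = true := by
      rw [h, Nat.testBit_two_pow_self]
    rw [Nat.testBit_and, Bool.and_eq_true] at h1
    exact h1.1
  · intro h
    refine Nat.eq_of_testBit_eq fun j => ?_
    rw [Nat.testBit_and, Nat.testBit_two_pow]
    by_cases hj : a = j
    · subst hj
      rw [h]; simp
    · simp [hj]

theorem land_two_pow_eq_zero (m a : ℕ) : m &&& 2 ^ a = 0 ↔ ¬ m.testBit a = true := by
  constructor
  · intro h h1
    have h2 := (land_two_pow_eq m a).2 h1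
    rw [h] at h2
    exact (Nat.two_pow_pos a).ne h2
  · intro h
    refine Nat.eq_of_testBit_eq fun j => ?_
    rw [Nat.testBit_and, Nat.testBit_two_pow, Nat.zero_testBit]
    by_cases hj : a = j
    · subst hj
      rw [Bool.not_eq_true] at h
      rw [h]; simp
    · simp [hj]

/-- blocks through `y` and not through `x` -/
def thr (k : ℕ) (y x : Fin 13) : ℕ := fam k (pin (2 ^ y.val) (2 ^ x.val))

theorem pin_iff {i : ℕ} (y x : Fin 13) :
    pin (2 ^ y.val) (2 ^ x.val) (msk k i) = true ↔ y ∈ ksub k i ∧ x ∉ ksub k i := by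
  unfold pin
  rw [Bool.and_eq_true, mem_ksub, mem_ksub, ← land_two_pow_eq, ← land_two_pow_eq_zero]
  exact ⟨fun h => ⟨Nat.eq_of_beq_eq_true h.1, Nat.eq_of_beq_eq_true h.2⟩,
    fun h => ⟨Nat.beq_eq.mpr h.1, Nat.beq_eq.mpr h.2⟩⟩

/-- the code of the blocks through `y` and not through `x` -/
theorem enc_thr (hk : 2 ≤ k ∧ k ≤ 5) (B : Finset (Finset (Fin 13))) (y x : Fin 13) :
    enc k (B.filter fun b => y ∈ b ∧ x ∉ b) = enc k B &&& thr k y x :=
  enc_filter hk B _ _ fun _ _ => pin_iff y x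

/-- the lane of the point `y` at the root `12`: the code of the blocks through `y` and not through `12` -/
def lane (B : Finset (Finset (Fin 13))) (y : Fin 13) : ℕ := enc 5 B &&& thr 5 y 12

/-- two lanes of the same cover agree on the common blocks -/
theorem lane_compat (B : Finset (Finset (Fin 13))) (y z : Fin 13) :
    lane B y &&& (thr 5 y 12 &&& thr 5 z 12) = lane B z &&& (thr 5 y 12 &&& thr 5 z 12) := by
  unfold lane
  refine Nat.eq_of_testBit_eq fun i => ?_
  simp only [Nat.testBit_and]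
  cases (enc 5 B).testBit i <;> cases (thr 5 y 12).testBit i <;> cases (thr 5 z 12).testBit i <;> rfl

theorem M5_low : (M5.take 792).all (fun m => Nat.blt m 4096) = true := by decide +kernel

theorem M4_high : (M4.drop 495).all (fun m => Nat.ble 4096 m) = true := by decide +kernel

theorem M4_low : (M4.take 495).all (fun m => Nat.blt m 4096) = true := by decide +kernel

theorem getD_take' (l : List ℕ) {n i : ℕ} (h : i < n) : (l.take n).getD i 0 = l.getD i 0 := by
  rw [List.getD_eq_getElem?_getD, List.getD_eq_getElem?_getD, List.getElem?_take_of_lt h]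

theorem getD_drop' (l : List ℕ) (n i : ℕ) : (l.drop n).getD i 0 = l.getD (n + i) 0 := by
  rw [List.getD_eq_getElem?_getD, List.getD_eq_getElem?_getD, List.getElem?_drop]

theorem getD_mem' {l : List ℕ} {i : ℕ} (h : i < l.length) : l.getD i 0 ∈ l := by
  rw [List.getD_eq_getElem _ _ h]
  exact List.getElem_mem _

theorem msk4_lt {i : ℕ} (hi : i < 495) : msk 4 i < 4096 := by
  have h0 : (M4.take 495).length = 495 := by decide +kernel
  have h1 : (M4.take 495).getD i 0 = msk 4 i := getD_take' M4 hi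
  rw [← h1]
  exact Nat.le_of_ble_eq_true (List.all_eq_true.1 M4_low _ (getD_mem' (by rw [h0]; exact hi)))

theorem msk4_ge {i : ℕ} (hi : 495 ≤ i) (h2 : i < 715) : 4096 ≤ msk 4 i ∧ msk 4 i < 8192 := by
  refine ⟨?_, (msk_pc ⟨by norm_num, by norm_num⟩ h2).2⟩
  have h0 : (M4.drop 495).length = 220 := by decide +kernel
  have h1 : (M4.drop 495).getD (i - 495) 0 = msk 4 i := by
    rw [getD_drop', Nat.add_sub_cancel' hi]
    rfl
  rw [← h1]
  exact Nat.le_of_ble_eq_true (List.all_eq_true.1 M4_high _ (getD_mem' (by rw [h0]; omega)))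

theorem msk5_add {i : ℕ} (hi : i < 495) : msk 5 (792 + i) = msk 4 i + 4096 := by
  have h3 : M5.drop 792 = (M4.take 495).map (· + 4096) := by decide +kernel
  have h2 : (M4.take 495).length = 495 := by decide +kernel
  have h4 : (M5.drop 792).getD i 0 = msk 5 (792 + i) := getD_drop' M5 792 i
  have h5 : (M4.take 495).getD i 0 = msk 4 i := getD_take' M4 hi
  rw [← h4, h3, ← h5, List.getD_eq_getElem _ _ (by rw [List.length_map, h2]; exact hi),
    List.getElem_map, List.getD_eq_getElem _ _ (by rw [h2]; exact hi)]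

theorem msk5_low {i : ℕ} (hi : i < 792) : msk 5 i < 4096 := by
  have h0 : (M5.take 792).length = 792 := by decide +kernel
  have h1 : (M5.take 792).getD i 0 = msk 5 i := getD_take' M5 hi
  rw [← h1]
  exact Nat.le_of_ble_eq_true (List.all_eq_true.1 M5_low _ (getD_mem' (by rw [h0]; exact hi)))

theorem ksub5_add {i : ℕ} (hi : i < 495) : ksub 5 (792 + i) = insert 12 (ksub 4 i) := by
  ext a
  rw [mem_insert, mem_ksub, mem_ksub, msk5_add hi]
  have h1 := msk4_lt hi
  have e : msk 4 i + 4096 = 2 ^ 12 + msk 4 i := by norm_num [add_comm]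
  by_cases ha : a = 12
  · subst ha
    refine ⟨fun _ => Or.inl rfl, fun _ => ?_⟩
    rw [e]
    have h3 : ((12 : Fin 13) : ℕ) = 12 := rfl
    rw [h3, Nat.testBit_two_pow_add_eq, Nat.testBit_lt_two_pow h1]
    rfl
  · have h2 : a.val < 12 := by
      have h3 := a.isLt
      have h4 : a.val ≠ 12 := fun h => ha (Fin.ext h)
      omega
    rw [e, Nat.testBit_two_pow_add_gt h2]
    exact ⟨fun h => Or.inr h, fun h => h.resolve_left ha⟩

theorem notMem_ksub4 {i : ℕ} (hi : i < 495) : (12 : Fin 13) ∉ ksub 4 i := by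
  rw [mem_ksub]
  have h3 : ((12 : Fin 13) : ℕ) = 12 := rfl
  rw [h3, Nat.testBit_lt_two_pow (msk4_lt hi)]
  decide

theorem notMem_ksub5 {i : ℕ} (hi : i < 792) : (12 : Fin 13) ∉ ksub 5 i := by
  rw [mem_ksub]
  have h3 : ((12 : Fin 13) : ℕ) = 12 := rfl
  rw [h3, Nat.testBit_lt_two_pow (msk5_low hi)]
  decide

theorem mem_ksub4 {i : ℕ} (hi : 495 ≤ i) (h2 : i < 715) : (12 : Fin 13) ∈ ksub 4 i := by
  rw [mem_ksub]
  obtain ⟨h4, h5⟩ := msk4_ge hi h2
  have h3 : ((12 : Fin 13) : ℕ) = 12 := rfl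
  rw [h3]
  have e : msk 4 i = 2 ^ 12 + (msk 4 i - 2 ^ 12) := by omega
  have h6 : msk 4 i - 2 ^ 12 < 2 ^ 12 := by omega
  rw [e, Nat.testBit_two_pow_add_eq, Nat.testBit_lt_two_pow h6]
  rfl

/-- the link of the point `12` -/
theorem enc_link (B : Finset (Finset (Fin 13))) : enc 4 (link B 12) = enc 5 B >>> 792 := by
  refine Nat.eq_of_testBit_eq fun i => Bool.eq_iff_iff.2 ?_
  rw [Nat.testBit_shiftRight, testBit_enc, testBit_enc, mem_link]
  have e1 : Nat.choose 13 4 = 715 := by decide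
  have e2 : Nat.choose 13 5 = 1287 := by decide
  rw [e1, e2]
  constructor
  · rintro ⟨h1, h2, h3⟩
    have h4 : i < 495 := by
      by_contra h
      exact h2 (mem_ksub4 (not_lt.1 h) h1)
    rw [ksub5_add h4]
    exact ⟨by omega, h3⟩
  · rintro ⟨h1, h2⟩
    have h4 : i < 495 := by omega
    rw [ksub5_add h4] at h2
    exact ⟨by omega, notMem_ksub4 h4, h2⟩

end Pool.Agent.Helper99.TY
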