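import Pool.Agent.Helper63.TY.FrameJ
import Pool.Agent.Helper38.TY.Key

/-!
MP_8ee768_co, project TH-Y', star engine with keys of 15 bits in fields of 16 bits.

Both sides of a join are lists of chunks of 64 lanes of 2048 bits. Rows: every chunk is cut into two
parts of 32 lanes, a part `P` comes with its key number `A` (4096 fields). Columns: two
consecutive chunks `X`, `X'` come with one key number `B`. One step compares 32 rows with 128
columns, the hits are read off with `Nat.gcd`.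

* `keyX_eq`: the keys of a chunk, `kF` = multiplicative hash of the bits 1024 .. 2046 of a lane;
* `rowsK`, `colsK`: the row data and the column data of a list of chunks, in continuation form;
* `joinD`: the join of row data and column data, `joinD_acc`;
* `joinF`, `joinF_acc`: the same for two lists of chunks, as a step;
* `rows4K`, `cols1K`, `joinG`, `joinG_acc`: the same for chunks of 128 lanes.

Order of the hits: row part (outer), pair of column chunks, then `128 * i + j`.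
-/

set_option autoImplicit false
set_option exponentiation.threshold 140000

namespace Pool.Agent.Helper99.TY

open Pool.Agent.Helper63.SIMD
open Pool.Agent.Helper63.TY (Cb Acc Lanes Join Agree testBit_fld testBit_fld_ge eq_of_fld pk_split)
open Pool.Agent.Helper97.CV.Cube (lane_shr_land)
open Pool.Agent.Helper38.TY (pk_modEq)

/-! ### evaluation -/

/-- the successor with a salt -/
def sc (_k a : ℕ) : ℕ := Nat.succ a

/-- evaluation of the argument `v`, with the salt `k` -/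
def fr (k v : ℕ) (f : ℕ → Bool) : Bool := @Nat.rec (fun _ => Bool) (f 0) (fun m _ => f (sc k m)) v

theorem fr_eq (k v : ℕ) (f : ℕ → Bool) : fr k v f = f v := by cases v <;> rfl

/-! ### keys -/

/-- the constant of the hash -/
def hc : ℕ :=
  0x512d518c99fa11de8392910c98bedd0ccbac456ad031911ae5506e9d87f9884b67c49326ed8d522661a23668f85641815a6aac26a06d73645ec22fc066b13fa1f48ce9360a9f34f231e65c677180a13e029a0ae8e7e3305b6e713befe53ac5ebb6c01518430036207757e6572008c825b1a612316c907c2a954946a33d391e03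

theorem hc_le : hc ≤ 2 ^ 1024 := by decide +kernel

/-- the part of a lane that counts -/
def up (u : ℕ) : ℕ := (u >>> 1024) % 2 ^ 1023

theorem up_agree {u v : ℕ} (h : Agree u v) : up u = up v := by
  refine Nat.eq_of_testBit_eq fun s => ?_
  unfold up
  rw [Nat.testBit_mod_two_pow, Nat.testBit_mod_two_pow, Nat.testBit_shiftRight,
    Nat.testBit_shiftRight]
  by_cases hs : s < 1023
  · rw [h s hs]
  · rw [decide_eq_false hs, Bool.false_and, Bool.false_and]

/-- the key of a lane, 15 bits -/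
def kF (u : ℕ) : ℕ := ((up u * hc) >>> 1000) &&& (2 ^ 15 - 1)

theorem kF_lt (u : ℕ) : kF u < 2 ^ (16 - 1) := by
  unfold kF
  rw [Nat.and_two_pow_sub_one_eq_mod]
  exact Nat.mod_lt _ (by norm_num)

theorem kF_agree {u v : ℕ} (h : Agree u v) : kF u = kF v := by
  unfold kF
  rw [up_agree h]

/-- mask of the upper halves of `n` lanes -/
def mU (n : ℕ) : ℕ := (2 ^ 1023 - 1) * rep 2048 n

/-- mask of the keys of `n` lanes -/
def mV (n : ℕ) : ℕ := (2 ^ 15 - 1) * rep 2048 n

/-- the keys at the stride of the lanes: `c = hc`, `U = mU n`, `V = mV n` -/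
def keyX (c U V X : ℕ) : ℕ :=
  Nat.land (Nat.shiftRight (Nat.mul (Nat.land (Nat.shiftRight X 1024) U) c) 1000) V

theorem up_lt (u : ℕ) : up u < 2 ^ 1023 := Nat.mod_lt _ (Nat.two_pow_pos _)

theorem land_mU (n X : ℕ) : (X >>> 1024) &&& mU n = pk 2048 n (fun i => up (fld 2048 X i)) := by
  have hU : mU n = pk 2048 n (fun _ => 2 ^ 1023 - 1) := mul_rep (by norm_num) _
  have hle : ∀ i < n, (fun _ : ℕ => 2 ^ 1023 - 1) i < 2 ^ 2048 := fun i _ =>
    lt_of_lt_of_le (Nat.sub_lt (Nat.two_pow_pos _) Nat.one_pos)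
      (Nat.pow_le_pow_right (by norm_num) (by norm_num))
  have hlt : ∀ i < n, up (fld 2048 X i) < 2 ^ 2048 := fun i _ =>
    lt_of_lt_of_le (up_lt _) (Nat.pow_le_pow_right (by norm_num) (by norm_num))
  refine eq_of_fld (W := 2048) (n := n)
    (lt_of_le_of_lt Nat.and_le_right (by rw [hU]; exact pk_lt hle)) (pk_lt hlt) fun i hi => ?_
  rw [fld_pk hlt hi]
  refine Nat.eq_of_testBit_eq fun t => ?_
  by_cases h1 : t < 2048
  · rw [testBit_fld h1, Nat.testBit_and, Nat.testBit_shiftRight]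
    have h2 : (mU n).testBit (2048 * i + t) = decide (t < 1023) := by
      rw [← testBit_fld h1, hU, fld_pk hle hi]
      exact Nat.testBit_two_pow_sub_one _ _
    unfold up
    rw [h2, Nat.testBit_mod_two_pow, Nat.testBit_shiftRight]
    by_cases h3 : t < 1023
    · rw [decide_eq_true h3, Bool.and_true, Bool.true_and, testBit_fld (by omega)]
      congr 1
      omega
    · rw [decide_eq_false h3, Bool.and_false, Bool.false_and]
  · rw [testBit_fld_ge (Nat.not_lt.1 h1)]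
    unfold up
    rw [Nat.testBit_mod_two_pow, decide_eq_false (by omega), Bool.false_and]

theorem keyX_eq (n X : ℕ) : keyX hc (mU n) (mV n) X = pk 2048 n (fun i => kF (fld 2048 X i)) := by
  show ((((X >>> 1024) &&& mU n) * hc) >>> 1000) &&& mV n = _
  have hV : mV n = pk 2048 n (fun _ => 2 ^ 15 - 1) := mul_rep (by norm_num) _
  rw [land_mU, Nat.mul_comm _ hc, mul_pk, hV, lane_shr_land (by norm_num)]
  · refine pk_congr fun i _ => ?_
    unfold kF
    rw [Nat.mul_comm hc]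
  · intro i _
    calc hc * up (fld 2048 X i) ≤ 2 ^ 1024 * up (fld 2048 X i) := Nat.mul_le_mul_right _ hc_le
      _ < 2 ^ 1024 * 2 ^ 1023 := Nat.mul_lt_mul_of_pos_left (up_lt _) (Nat.two_pow_pos _)
      _ = 2 ^ 2047 := by rw [← pow_add]
      _ ≤ 2 ^ 2048 := Nat.pow_le_pow_right (by norm_num) (by norm_num)
  · intro i _
    exact lt_of_lt_of_le (by norm_num : 2 ^ 15 - 1 < 2 ^ 15)
      (Nat.pow_le_pow_right (by norm_num) (by norm_num))

theorem keyX_zero (U V c : ℕ) : keyX c U V 0 = 0 := by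
  show ((((0 >>> 1024) &&& U) * c) >>> 1000) &&& V = 0
  rw [Nat.zero_shiftRight, Nat.zero_and, Nat.zero_mul, Nat.zero_shiftRight, Nat.zero_and]

/-- compression of 64 keys: `m = 2 ^ 2048 - 2 ^ 16` -/
theorem cmp64 {a : ℕ → ℕ} (ha : ∀ i < 64, a i < 2 ^ (16 - 1)) :
    pk 2048 64 a % (2 ^ 2048 - 2 ^ 16) = pk 16 64 a := by
  have h1 := pk_modEq 2048 16 64 (by norm_num) a
  have h2 : pk 16 64 a < 2 ^ (16 * 64) :=
    pk_lt fun i hi => lt_of_lt_of_le (ha i hi) (by norm_num)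
  have h3 : (2 : ℕ) ^ (16 * 64) ≤ 2 ^ 2048 - 2 ^ 16 := by
    have h4 : (2 : ℕ) ^ (16 * 64) ≤ 2 ^ 2047 := Nat.pow_le_pow_right (by norm_num) (by norm_num)
    have h5 : (2 : ℕ) ^ 16 ≤ 2 ^ 2047 := Nat.pow_le_pow_right (by norm_num) (by norm_num)
    have h6 : (2 : ℕ) ^ 2048 = 2 * 2 ^ 2047 := by rw [← pow_succ']
    generalize (2 : ℕ) ^ 2047 = z at h4 h5 h6
    generalize (2 : ℕ) ^ 2048 = z' at h6 ⊢
    generalize (2 : ℕ) ^ (16 * 64) = z1 at h4 ⊢
    generalize (2 : ℕ) ^ 16 = z2 at h5 ⊢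
    omega
  unfold Nat.ModEq at h1
  rw [h1, Nat.mod_eq_of_lt (lt_of_lt_of_le h2 h3)]

/-! ### row data -/

/-- a part of 32 lanes and its key number: `c = hc`, `U = mU 32`, `V = mV 32`, `R = rep 16 128` -/
def rkey (c U V R P : ℕ) : ℕ := Nat.mul (keyX c U V P) R

/-- the second number of a pair is the key number of the first one -/
def RowG (p : ℕ × ℕ) : Prop :=
  p.2 = pk (16 * 128) 32 (fun i => kF (fld 2048 p.1 i)) * rep 16 128

theorem rowG_rkey (P : ℕ) : RowG (P, rkey hc (mU 32) (mV 32) (rep 16 128) P) := by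
  show rkey hc (mU 32) (mV 32) (rep 16 128) P = _
  show keyX hc (mU 32) (mV 32) P * rep 16 128 = _
  rw [keyX_eq]

/-- the row data, in continuation form: `T = 2 ^ 65536 - 1` -/
def rowsK (c U V R T : ℕ) (ys : List ℕ) : (List (ℕ × ℕ) → Bool) → Bool :=
  @List.rec ℕ (fun _ => (List (ℕ × ℕ) → Bool) → Bool) (fun k => k [])
    (fun Y _ ih k => fr Y (Nat.land Y T) fun P => fr Y (rkey c U V R P) fun A =>
      fr Y (Nat.land (Nat.shiftRight Y 65536) T) fun P' => fr P' (rkey c U V R P') fun A' =>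
        ih fun l => k ((P, A) :: (P', A') :: l)) ys

/-- the row data -/
def rowsL (ys : List ℕ) : List (ℕ × ℕ) :=
  ys.flatMap fun Y => [(Nat.land Y (2 ^ 65536 - 1), rkey hc (mU 32) (mV 32) (rep 16 128)
      (Nat.land Y (2 ^ 65536 - 1))),
    (Nat.land (Nat.shiftRight Y 65536) (2 ^ 65536 - 1), rkey hc (mU 32) (mV 32) (rep 16 128)
      (Nat.land (Nat.shiftRight Y 65536) (2 ^ 65536 - 1)))]

theorem rowsK_eq (ys : List ℕ) (k : List (ℕ × ℕ) → Bool) :
    rowsK hc (mU 32) (mV 32) (rep 16 128) (2 ^ 65536 - 1) ys k = k (rowsL ys) := by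
  induction ys generalizing k with
  | nil => rfl
  | cons Y ys ih =>
    have h1 : rowsK hc (mU 32) (mV 32) (rep 16 128) (2 ^ 65536 - 1) (Y :: ys) k =
        fr Y (Nat.land Y (2 ^ 65536 - 1)) fun P =>
          fr Y (rkey hc (mU 32) (mV 32) (rep 16 128) P) fun A =>
      fr Y (Nat.land (Nat.shiftRight Y 65536) (2 ^ 65536 - 1)) fun P' =>
        fr P' (rkey hc (mU 32) (mV 32) (rep 16 128) P') fun A' =>
        rowsK hc (mU 32) (mV 32) (rep 16 128) (2 ^ 65536 - 1) ys
          fun l => k ((P, A) :: (P', A') :: l) := rfl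
    rw [h1]
    simp only [fr_eq]
    rw [ih]
    rfl

theorem rowG_rowsL {ys : List ℕ} {p : ℕ × ℕ} (hp : p ∈ rowsL ys) : RowG p := by
  unfold rowsL at hp
  rw [List.mem_flatMap] at hp
  obtain ⟨Y, -, hp⟩ := hp
  rcases List.mem_cons.1 hp with rfl | hp
  · exact rowG_rkey _
  · rcases List.mem_cons.1 hp with rfl | hp
    · exact rowG_rkey _
    · exact absurd hp List.not_mem_nil

theorem fld_part (Y q i : ℕ) (hi : i < 32) :
    fld 2048 ((Y >>> (65536 * q)) &&& (2 ^ 65536 - 1)) i = fld 2048 Y (32 * q + i) := by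
  refine Nat.eq_of_testBit_eq fun t => ?_
  by_cases ht : t < 2048
  · rw [testBit_fld ht, testBit_fld ht, Nat.testBit_and, Nat.testBit_shiftRight,
      Nat.testBit_two_pow_sub_one, decide_eq_true (by omega), Bool.and_true]
    congr 1
    ring
  · rw [testBit_fld_ge (Nat.not_lt.1 ht), testBit_fld_ge (Nat.not_lt.1 ht)]

theorem rows_cover {ys : List ℕ} {u : ℕ} (hu : u ∈ Lanes 64 ys) :
    ∃ p ∈ rowsL ys, ∃ i < 32, u = fld 2048 p.1 i := by
  obtain ⟨Y, hY, i, hi, rfl⟩ := hu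
  unfold rowsL
  by_cases h : i < 32
  · refine ⟨(Nat.land Y (2 ^ 65536 - 1), rkey hc (mU 32) (mV 32) (rep 16 128)
      (Nat.land Y (2 ^ 65536 - 1))), List.mem_flatMap.2 ⟨Y, hY, List.mem_cons_self⟩, i, h, ?_⟩
    have h1 := fld_part Y 0 i h
    simp only [Nat.mul_zero, Nat.shiftRight_zero, Nat.zero_add] at h1
    exact h1.symm
  · refine ⟨(Nat.land (Nat.shiftRight Y 65536) (2 ^ 65536 - 1), rkey hc (mU 32) (mV 32)
      (rep 16 128) (Nat.land (Nat.shiftRight Y 65536) (2 ^ 65536 - 1))),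
      List.mem_flatMap.2 ⟨Y, hY, List.mem_cons_of_mem _ List.mem_cons_self⟩, i - 32, by omega, ?_⟩
    have h1 := fld_part Y 1 (i - 32) (by omega)
    simp only [Nat.mul_one, show 32 + (i - 32) = i by omega] at h1
    exact h1.symm

/-! ### column data -/

/-- lane `j < 128` of a pair of chunks -/
def laneC (X X' j : ℕ) : ℕ := if j < 64 then fld 2048 X j else fld 2048 X' (j - 64)

/-- the compressed keys: `c = hc`, `U = mU 64`, `V = mV 64`, `m = 2 ^ 2048 - 2 ^ 16` -/
def ckey (c U V m X : ℕ) : ℕ := Nat.mod (keyX c U V X) m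

/-- the third number is the key number of the pair -/
def ColG (q : ℕ × ℕ × ℕ) : Prop :=
  q.2.2 = rep (16 * 128) 32 * pk 16 128 (fun j => kF (laneC q.1 q.2.1 j))

theorem colG_iff {X X' B : ℕ} : ColG (X, X', B) ↔
    B = rep (16 * 128) 32 * pk 16 128 (fun j => kF (laneC X X' j)) := Iff.rfl

theorem ckey_eq (X : ℕ) : ckey hc (mU 64) (mV 64) (2 ^ 2048 - 2 ^ 16) X =
    pk 16 64 (fun i => kF (fld 2048 X i)) := by
  show keyX hc (mU 64) (mV 64) X % _ = _
  rw [keyX_eq, cmp64 fun i _ => kF_lt _]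

/-- the key number of a pair of chunks with the keys `K`, `K'`: `R = rep 2048 32` -/
def bkey (R K K' : ℕ) : ℕ := Nat.mul R (Nat.add K (Nat.shiftLeft K' 1024))

theorem bkey_eq (R K K' : ℕ) : bkey R K K' = R * (K + 2 ^ 1024 * K') := by
  have h : bkey R K K' = R * (K + K' <<< 1024) := rfl
  rw [h, Nat.shiftLeft_eq, Nat.mul_comm K']

/-- the key number of a single chunk -/
def bkey1 (R K : ℕ) : ℕ := Nat.mul R K

/-- the compressed keys of a chunk -/
def ck (X : ℕ) : ℕ := ckey hc (mU 64) (mV 64) (2 ^ 2048 - 2 ^ 16) X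

theorem ck_eq (X : ℕ) : ck X = pk 16 64 (fun i => kF (fld 2048 X i)) := ckey_eq X

theorem ck_zero : ck 0 = 0 := by
  unfold ck ckey
  rw [keyX_zero]
  exact Nat.zero_mod _

theorem colG_pair (X X' : ℕ) : ColG (X, X', bkey (rep (16 * 128) 32) (ck X) (ck X')) := by
  refine colG_iff.2 ?_
  rw [bkey_eq, ck_eq, ck_eq]
  have h1 := pk_split (W := 16) (n := 64) (m := 64) (fun j => kF (laneC X X' j))
  have h2 : pk 16 64 (fun i => kF (fld 2048 X i)) = pk 16 64 (fun j => kF (laneC X X' j)) := by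
    refine pk_congr fun i hi => ?_
    unfold laneC
    rw [if_pos hi]
  have h3 : pk 16 64 (fun i => kF (fld 2048 X' i)) = pk 16 64 (fun j => kF (laneC X X' (64 + j))) := by
    refine pk_congr fun i hi => ?_
    unfold laneC
    rw [if_neg (by omega), Nat.add_sub_cancel_left]
  rw [h2, h3]
  have h4 : pk 16 128 (fun j => kF (laneC X X' j)) = pk 16 64 (fun j => kF (laneC X X' j)) +
      2 ^ 1024 * pk 16 64 (fun j => kF (laneC X X' (64 + j))) := h1
  rw [h4]

theorem colG_single (X : ℕ) : ColG (X, 0, bkey1 (rep (16 * 128) 32) (ck X)) := by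
  have h := colG_pair X 0
  have h1 : bkey (rep (16 * 128) 32) (ck X) (ck 0) = bkey1 (rep (16 * 128) 32) (ck X) := by
    rw [bkey_eq, ck_zero, Nat.mul_zero, Nat.add_zero]
    rfl
  rw [h1] at h
  exact h

/-- the column data, in continuation form; `b` says that the chunk `X` with keys `K` waits -/
def colsG (c U V R m : ℕ) (zs : List ℕ) : Bool → ℕ → ℕ → (List (ℕ × ℕ × ℕ) → Bool) → Bool :=
  @List.rec ℕ (fun _ => Bool → ℕ → ℕ → (List (ℕ × ℕ × ℕ) → Bool) → Bool)
    (fun b X K k => @Bool.rec (fun _ => Bool) (k [])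
      (fr X (bkey1 R K) fun B => k ((X, 0, B) :: [])) b)
    (fun Z _ ih b X K k => fr Z (ckey c U V m Z) fun K' => @Bool.rec (fun _ => Bool)
      (ih true Z K' k)
      (fr X (bkey R K K') fun B =>
        ih false 0 0 fun l => k ((X, Z, B) :: l)) b) zs

/-- the column data, in continuation form -/
def colsK (c U V R m : ℕ) (zs : List ℕ) (k : List (ℕ × ℕ × ℕ) → Bool) : Bool :=
  colsG c U V R m zs false 0 0 k

/-- the column data -/
def colsL : List ℕ → List (ℕ × ℕ × ℕ)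
  | [] => []
  | [X] => [(X, 0, bkey1 (rep (16 * 128) 32) (ck X))]
  | X :: X' :: l => (X, X', bkey (rep (16 * 128) 32) (ck X) (ck X')) :: colsL l

theorem colsG_nil_false (c U V R m X K : ℕ) (k : List (ℕ × ℕ × ℕ) → Bool) :
    colsG c U V R m [] false X K k = k [] := rfl

theorem colsG_nil_true (c U V R m X K : ℕ) (k : List (ℕ × ℕ × ℕ) → Bool) :
    colsG c U V R m [] true X K k = k [(X, 0, bkey1 R K)] := by
  have h : colsG c U V R m [] true X K k = fr X (bkey1 R K) fun B => k ((X, 0, B) :: []) := rfl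
  rw [h, fr_eq]

theorem colsG_cons_false (c U V R m Z X K : ℕ) (zs : List ℕ) (k : List (ℕ × ℕ × ℕ) → Bool) :
    colsG c U V R m (Z :: zs) false X K k = colsG c U V R m zs true Z (ckey c U V m Z) k := by
  have h : colsG c U V R m (Z :: zs) false X K k =
    fr Z (ckey c U V m Z) fun K' => colsG c U V R m zs true Z K' k := rfl
  rw [h, fr_eq]

theorem colsG_cons_true (c U V R m Z X K : ℕ) (zs : List ℕ) (k : List (ℕ × ℕ × ℕ) → Bool) :
    colsG c U V R m (Z :: zs) true X K k =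
      colsG c U V R m zs false 0 0 fun l => k ((X, Z, bkey R K (ckey c U V m Z)) :: l) := by
  have h : colsG c U V R m (Z :: zs) true X K k =
    fr Z (ckey c U V m Z) fun K' => fr X (bkey R K K') fun B =>
      colsG c U V R m zs false 0 0 fun l => k ((X, Z, B) :: l) := rfl
  rw [h, fr_eq, fr_eq]

theorem colsG_eq (zs : List ℕ) : (∀ k, colsG hc (mU 64) (mV 64) (rep (16 * 128) 32)
      (2 ^ 2048 - 2 ^ 16) zs false 0 0 k = k (colsL zs)) ∧
    ∀ X k, colsG hc (mU 64) (mV 64) (rep (16 * 128) 32) (2 ^ 2048 - 2 ^ 16) zs true X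
      (ck X) k = k (colsL (X :: zs)) := by
  induction zs with
  | nil =>
    refine ⟨fun k => ?_, fun X k => ?_⟩
    · rw [colsG_nil_false, colsL]
    · rw [colsG_nil_true, colsL]
  | cons Z zs ih =>
    refine ⟨fun k => ?_, fun X k => ?_⟩
    · rw [colsG_cons_false]
      exact ih.2 Z k
    · rw [colsG_cons_true, ih.1, colsL]
      rfl

theorem colsK_eq (zs : List ℕ) (k : List (ℕ × ℕ × ℕ) → Bool) :
    colsK hc (mU 64) (mV 64) (rep (16 * 128) 32) (2 ^ 2048 - 2 ^ 16) zs k = k (colsL zs) :=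
  (colsG_eq zs).1 k

theorem colsL_nil : colsL [] = [] := by rw [colsL]

theorem colsL_one (X : ℕ) : colsL [X] = [(X, 0, bkey1 (rep (16 * 128) 32) (ck X))] := by
  rw [colsL]

theorem colsL_two (X X' : ℕ) (l : List ℕ) : colsL (X :: X' :: l) =
    (X, X', bkey (rep (16 * 128) 32) (ck X) (ck X')) :: colsL l := by rw [colsL]

theorem laneC_left {X X' j : ℕ} (hj : j < 64) : laneC X X' j = fld 2048 X j := by
  unfold laneC
  rw [if_pos hj]

theorem laneC_right (X X' j : ℕ) : laneC X X' (64 + j) = fld 2048 X' j := by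
  unfold laneC
  rw [if_neg (by omega), Nat.add_sub_cancel_left]

/-- the elements of the column data are sound, and all lanes are there -/
def ColS (zs : List ℕ) : Prop := (∀ q ∈ colsL zs, ColG q) ∧
  ∀ Z ∈ zs, ∀ j < 64, ∃ q ∈ colsL zs, ∃ j' < 128, fld 2048 Z j = laneC q.1 q.2.1 j'

theorem colS_nil : ColS [] := by
  unfold ColS
  rw [colsL_nil]
  exact ⟨fun q hq => absurd hq List.not_mem_nil, fun Z hZ => absurd hZ List.not_mem_nil⟩

theorem colS_one (X : ℕ) : ColS [X] := by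
  unfold ColS
  rw [colsL_one]
  refine ⟨fun q hq => ?_, fun Z hZ j hj => ?_⟩
  · rw [List.mem_singleton] at hq
    rw [hq]
    exact colG_single X
  · rw [List.mem_singleton] at hZ
    rw [hZ]
    exact ⟨_, List.mem_cons_self, j, by omega, (laneC_left hj).symm⟩

theorem colS_two {X X' : ℕ} {l : List ℕ} (h : ColS l) : ColS (X :: X' :: l) := by
  unfold ColS at h ⊢
  rw [colsL_two]
  refine ⟨fun q hq => ?_, fun Z hZ j hj => ?_⟩
  · rw [List.mem_cons] at hq
    rcases hq with hq | hq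
    · rw [hq]
      exact colG_pair X X'
    · exact h.1 q hq
  · rw [List.mem_cons, List.mem_cons] at hZ
    rcases hZ with hZ | hZ | hZ
    · rw [hZ]
      exact ⟨_, List.mem_cons_self, j, by omega, (laneC_left hj).symm⟩
    · rw [hZ]
      exact ⟨_, List.mem_cons_self, 64 + j, by omega, (laneC_right X X' j).symm⟩
    · obtain ⟨q, hq, h3⟩ := h.2 Z hZ j hj
      exact ⟨q, List.mem_cons_of_mem _ hq, h3⟩

theorem two_ind {P : List ℕ → Prop} (h0 : P []) (h1 : ∀ X, P [X])
    (h2 : ∀ X X' l, P l → P (X :: X' :: l)) : ∀ l, P l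
  | [] => h0
  | [X] => h1 X
  | X :: X' :: l => h2 X X' l (two_ind h0 h1 h2 l)

theorem colS_all (zs : List ℕ) : ColS zs :=
  two_ind colS_nil colS_one (fun _ _ _ h => colS_two h) zs

/-! ### reading off the hits -/

/-- the number of the field under the bit `b = 2 ^ (16 * k)` -/
def idx (b : ℕ) : ℕ := Nat.mod (Nat.div (Nat.sub b 1) 65535) 65535

theorem idx_eq {k : ℕ} (hk : k < 65535) : idx (2 ^ (16 * k)) = k :=
  Pool.Agent.Helper91.TY.bitIdx_eq (u := 0) (v := 0) (W := 16) hk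

/-- visit all set bits `16 * k` of `Z`, `G = 2 ^ 65536`; `u` is a salt -/
def hitG (u G : ℕ) (f : ℕ → Cb) (n : ℕ) : ℕ → Cb :=
  @Nat.rec (fun _ => ℕ → Cb) (fun _ _ _ => false)
    (fun _ ih Z s c => @Bool.rec (fun _ => Bool)
      ((fun b => fr u (idx b) fun k => f k s fun s' => ih (Nat.xor Z b) s' c) (Nat.gcd Z G))
      (c s) (Nat.beq Z 0)) n

theorem hitG_zero (u G : ℕ) (f : ℕ → Cb) (Z s : ℕ) (c : ℕ → Bool) :
    hitG u G f 0 Z s c = false := rfl

theorem hitG_succ (u G : ℕ) (f : ℕ → Cb) (n Z s : ℕ) (c : ℕ → Bool) :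
    hitG u G f (n + 1) Z s c = @Bool.rec (fun _ => Bool)
      (fr u (idx (Nat.gcd Z G)) fun k => f k s fun s' => hitG u G f n (Z ^^^ Nat.gcd Z G) s' c)
      (c s) (Nat.beq Z 0) := rfl

theorem hitG_sound {u : ℕ} {P : ℕ → Prop} {f : ℕ → Cb} (hf : ∀ k, Acc (P k) (f k)) :
    ∀ {n Z s : ℕ} {c : ℕ → Bool}, hitG u (2 ^ 65536) f n Z s c = true →
      (∀ k, k < 65535 → Z.testBit (16 * k) = true → P k) ∧ ∃ s', c s' = true := by
  intro n
  induction n with
  | zero =>
    intro Z s c h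
    rw [hitG_zero] at h
    exact Bool.noConfusion h
  | succ n ih =>
    intro Z s c h
    rw [hitG_succ] at h
    by_cases hZ : Z = 0
    · subst hZ
      refine ⟨fun k _ hk => ?_, s, h⟩
      rw [Nat.zero_testBit] at hk
      exact Bool.noConfusion hk
    · have hb : Nat.beq Z 0 = false := by
        rw [← Bool.not_eq_true]
        intro h1
        exact hZ (Nat.eq_of_beq_eq_true h1)
      rw [hb] at h
      obtain ⟨t, -, ht⟩ := (Nat.dvd_prime_pow Nat.prime_two).1 (Nat.gcd_dvd_right Z (2 ^ 65536))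
      rw [ht] at h
      simp only [fr_eq] at h
      obtain ⟨h4, s', h5⟩ := hf _ _ _ h
      obtain ⟨h6, h7⟩ := ih h5
      refine ⟨fun k hk hkt => ?_, h7⟩
      by_cases hit : 16 * k = t
      · subst hit
        rw [idx_eq hk] at h4
        exact h4
      · refine h6 k hk ?_
        rw [Nat.testBit_xor, hkt, Nat.testBit_two_pow_of_ne (Ne.symm hit), Bool.xor_false]

/-! ### one step -/

/-- all equal fields of `A` and `B` are visited: `M = (2 ^ 15 - 1) * rep 16 4096`,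
`H = 2 ^ 15 * rep 16 4096`, `G = 2 ^ 65536` -/
def eqF (M H G A B : ℕ) (f : ℕ → Cb) : Cb := fun s c =>
  (fun x => @Bool.rec (fun _ => Bool)
    (hitG (Nat.add A B) G f 4097 (Nat.shiftRight (Nat.xor x H) 15) s c) (c s) (Nat.beq x H))
    (Nat.land (Nat.add (Nat.xor A B) M) H)

theorem eqF_def (M H G A B : ℕ) (f : ℕ → Cb) (s : ℕ) (c : ℕ → Bool) :
    eqF M H G A B f s c = @Bool.rec (fun _ => Bool)
      (hitG (Nat.add A B) G f 4097 (((((A ^^^ B) + M) &&& H) ^^^ H) >>> 15) s c) (c s)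
      (Nat.beq (((A ^^^ B) + M) &&& H) H) := rfl

theorem eqF_acc {a b : ℕ → ℕ} (ha : ∀ i < 32, a i < 2 ^ (16 - 1)) (hb : ∀ j < 128, b j < 2 ^ (16 - 1))
    {P : ℕ → Prop} {f : ℕ → Cb} (hf : ∀ k, Acc (P k) (f k)) :
    Acc (∀ i < 32, ∀ j < 128, a i = b j → P (128 * i + j))
      (eqF ((2 ^ 15 - 1) * rep 16 4096) (2 ^ 15 * rep 16 4096) (2 ^ 65536)
        (pk (16 * 128) 32 a * rep 16 128) (rep (16 * 128) 32 * pk 16 128 b) f) := by
  rw [rows (by norm_num), cols (by norm_num) (by norm_num)]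
  intro s c h
  rw [eqF_def] at h
  have hx : ∀ k < 4096, a (k / 128) ^^^ b (k % 128) < 2 ^ (16 - 1) := fun k hk =>
    Nat.xor_lt_two_pow (ha _ (by omega)) (hb _ (Nat.mod_lt _ (by norm_num)))
  have hS : (pk 16 (32 * 128) (fun k => a (k / 128)) ^^^ pk 16 (32 * 128) (fun k => b (k % 128))) +
      (2 ^ 15 - 1) * rep 16 4096 = pk 16 4096 (fun k => (a (k / 128) ^^^ b (k % 128)) + (2 ^ 15 - 1)) := by
    rw [show 32 * 128 = 4096 from rfl,
      pk_xor (fun k hk => lt_of_lt_of_le (ha _ (by omega)) (by norm_num))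
        (fun k hk => lt_of_lt_of_le (hb _ (Nat.mod_lt _ (by norm_num))) (by norm_num)),
      mul_rep (by norm_num), pk_add]
  have hlt : ∀ k < 4096, (fun k => (a (k / 128) ^^^ b (k % 128)) + (2 ^ 15 - 1)) k < 2 ^ 16 := by
    intro k hk
    have := hx k hk
    show (a (k / 128) ^^^ b (k % 128)) + (2 ^ 15 - 1) < 2 ^ 16
    omega
  have hH : 2 ^ 15 * rep 16 4096 = pk 16 4096 (fun _ => 2 ^ 15) := mul_rep (by norm_num) _
  have hHb : ∀ k < 4096, (2 ^ 15 * rep 16 4096).testBit (16 * k + 15) = true := by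
    intro k hk
    rw [hH, ← testBit_fld (by norm_num), fld_pk (fun i _ => by norm_num) hk]
    decide
  have hbit : ∀ k < 4096, a (k / 128) = b (k % 128) →
      ((pk 16 (32 * 128) (fun k => a (k / 128)) ^^^ pk 16 (32 * 128) (fun k => b (k % 128))) +
      (2 ^ 15 - 1) * rep 16 4096).testBit (16 * k + 15) = false := by
    intro k hk hab
    rw [hS, ← testBit_fld (by norm_num), fld_pk hlt hk]
    show ((a (k / 128) ^^^ b (k % 128)) + (2 ^ 15 - 1)).testBit 15 = false
    rw [hab, Nat.xor_self]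
    decide
  generalize (pk 16 (32 * 128) (fun k => a (k / 128)) ^^^ pk 16 (32 * 128) (fun k => b (k % 128))) +
      (2 ^ 15 - 1) * rep 16 4096 = S at h hbit
  generalize 2 ^ 15 * rep 16 4096 = H at h hHb
  have e1 : ∀ i < 32, ∀ j < 128, (128 * i + j) / 128 = i ∧ (128 * i + j) % 128 = j ∧
      128 * i + j < 4096 := by
    intro i hi j hj
    omega
  by_cases he : S &&& H = H
  · have hb1 : Nat.beq (S &&& H) H = true := by
      rw [he]
      exact Nat.beq_refl H
    rw [hb1] at h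
    refine ⟨fun i hi j hj hab => ?_, s, h⟩
    obtain ⟨h1, h2, h3⟩ := e1 i hi j hj
    have h5 := hbit (128 * i + j) h3 (by rw [h1, h2]; exact hab)
    have h6 := hHb (128 * i + j) h3
    rw [← he, Nat.testBit_and, h5, Bool.false_and] at h6
    exact Bool.noConfusion h6
  · have hb1 : Nat.beq (S &&& H) H = false := by
      rw [← Bool.not_eq_true]
      intro h1
      exact he (Nat.eq_of_beq_eq_true h1)
    rw [hb1] at h
    obtain ⟨h6, h7⟩ := hitG_sound hf h
    refine ⟨fun i hi j hj hab => ?_, h7⟩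
    obtain ⟨h1, h2, h3⟩ := e1 i hi j hj
    refine h6 _ (by omega) ?_
    rw [Nat.testBit_shiftRight, Nat.testBit_xor, Nat.testBit_and, Nat.add_comm 15, hHb _ h3,
      hbit _ h3 (by rw [h1, h2]; exact hab)]
    rfl

/-! ### the join -/

/-- the callback at the field `k = 128 * i + j`: `m = 2 ^ 2048 - 1` -/
def atF (cb : ℕ → ℕ → Cb) (m P X X' k : ℕ) : Cb := fun s c =>
  fr k (Nat.land (Nat.shiftRight P (Nat.mul 2048 (Nat.div k 128))) m) fun u =>
    fr u (@Bool.rec (fun _ => ℕ)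
      (Nat.land (Nat.shiftRight X' (Nat.mul 2048 (Nat.sub (Nat.mod k 128) 64))) m)
      (Nat.land (Nat.shiftRight X (Nat.mul 2048 (Nat.mod k 128))) m)
      (Nat.ble (Nat.succ (Nat.mod k 128)) 64)) fun v => cb u v s c

theorem atF_eq (cb : ℕ → ℕ → Cb) (P X X' k s : ℕ) (c : ℕ → Bool) :
    atF cb (2 ^ 2048 - 1) P X X' k s c = cb (fld 2048 P (k / 128)) (laneC X X' (k % 128)) s c := by
  unfold atF
  rw [fr_eq, fr_eq]
  have h1 : ∀ Y i, Nat.land (Nat.shiftRight Y (Nat.mul 2048 i)) (2 ^ 2048 - 1) = fld 2048 Y i := by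
    intro Y i
    show (Y >>> (2048 * i)) &&& (2 ^ 2048 - 1) = Y / 2 ^ (2048 * i) % 2 ^ 2048
    rw [Nat.and_two_pow_sub_one_eq_mod, Nat.shiftRight_eq_div_pow]
  rw [h1, h1, h1]
  have e1 : Nat.mod k 128 = k % 128 := rfl
  have e2 : Nat.div k 128 = k / 128 := rfl
  rw [e1, e2]
  unfold laneC
  by_cases h : k % 128 < 64
  · have hb : Nat.ble (Nat.succ (k % 128)) 64 = true := Nat.ble_eq_true_of_le h
    rw [hb, if_pos h]
  · have hb : Nat.ble (Nat.succ (k % 128)) 64 = false := by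
      rw [← Bool.not_eq_true]
      intro h5
      exact h (Nat.le_of_ble_eq_true h5)
    rw [hb, if_neg h]
    rfl

/-- a row part against a pair of column chunks -/
def stF (cb : ℕ → ℕ → Cb) (m M H G : ℕ) (p : ℕ × ℕ) (q : ℕ × ℕ × ℕ) : Cb :=
  @Prod.rec ℕ ℕ (fun _ => Cb) (fun P A => @Prod.rec ℕ (ℕ × ℕ) (fun _ => Cb)
    (fun X t => @Prod.rec ℕ ℕ (fun _ => Cb) (fun X' B => eqF M H G A B (atF cb m P X X')) t) q) p

theorem stF_mk (cb : ℕ → ℕ → Cb) (m M H G P A X X' B : ℕ) :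
    stF cb m M H G (P, A) (X, X', B) = eqF M H G A B (atF cb m P X X') := rfl

theorem rowG_mk {P A : ℕ} (h : RowG (P, A)) :
    A = pk (16 * 128) 32 (fun i => kF (fld 2048 P i)) * rep 16 128 := h

theorem atF_acc {D : ℕ → ℕ → Prop} {cb : ℕ → ℕ → Cb}
    (hcb : ∀ u v, Acc (Agree u v → D u v) (cb u v)) (P X X' k : ℕ) :
    Acc (Agree (fld 2048 P (k / 128)) (laneC X X' (k % 128)) →
      D (fld 2048 P (k / 128)) (laneC X X' (k % 128))) (atF cb (2 ^ 2048 - 1) P X X' k) := by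
  intro s c h
  rw [atF_eq] at h
  exact hcb _ _ s c h

theorem stF_acc0 {D : ℕ → ℕ → Prop} {cb : ℕ → ℕ → Cb}
    (hcb : ∀ u v, Acc (Agree u v → D u v) (cb u v)) (P X X' : ℕ) :
    Acc (∀ i < 32, ∀ j < 128, Agree (fld 2048 P i) (laneC X X' j) →
        D (fld 2048 P i) (laneC X X' j))
      (eqF ((2 ^ 15 - 1) * rep 16 4096) (2 ^ 15 * rep 16 4096) (2 ^ 65536)
        (pk (16 * 128) 32 (fun i => kF (fld 2048 P i)) * rep 16 128)
        (rep (16 * 128) 32 * pk 16 128 (fun j => kF (laneC X X' j)))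
        (atF cb (2 ^ 2048 - 1) P X X')) := by
  refine (eqF_acc (fun i _ => kF_lt _) (fun j _ => kF_lt _) (atF_acc hcb P X X')).mono ?_
  intro h i hi j hj hag
  have h1 := h i hi j hj (kF_agree hag)
  have e1 : (128 * i + j) / 128 = i := by omega
  have e2 : (128 * i + j) % 128 = j := by omega
  rw [e1, e2] at h1
  exact h1 hag

theorem stF_acc {D : ℕ → ℕ → Prop} {cb : ℕ → ℕ → Cb}
    (hcb : ∀ u v, Acc (Agree u v → D u v) (cb u v)) {P A X X' B : ℕ}
    (hp : RowG (P, A)) (hq : ColG (X, X', B)) :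
    Acc (∀ i < 32, ∀ j < 128, Agree (fld 2048 P i) (laneC X X' j) →
        D (fld 2048 P i) (laneC X X' j))
      (stF cb (2 ^ 2048 - 1) ((2 ^ 15 - 1) * rep 16 4096) (2 ^ 15 * rep 16 4096) (2 ^ 65536)
        (P, A) (X, X', B)) := by
  rw [stF_mk, rowG_mk hp, colG_iff.1 hq]
  exact stF_acc0 hcb P X X'

/-- steps for all elements of a list, the state is not evaluated -/
def loop {α : Type} (f : α → Cb) (l : List α) : Cb :=
  @List.rec α (fun _ => Cb) (fun s c => c s) (fun a _ ih s c => f a s fun s' => ih s' c) l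

theorem loop_acc {α : Type} {P : α → Prop} {f : α → Cb} {l : List α}
    (h : ∀ a ∈ l, Acc (P a) (f a)) : Acc (∀ a ∈ l, P a) (loop f l) := by
  induction l with
  | nil =>
    intro s c hs
    exact ⟨fun a ha => absurd ha List.not_mem_nil, s, hs⟩
  | cons a l ih =>
    intro s c hs
    have hs' : (f a s fun s' => loop f l s' c) = true := hs
    obtain ⟨h1, s', h2⟩ := h a List.mem_cons_self s _ hs'
    obtain ⟨h3, h4⟩ := ih (fun b hb => h b (List.mem_cons_of_mem _ hb)) s' c h2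
    refine ⟨fun b hb => ?_, h4⟩
    rcases List.mem_cons.1 hb with rfl | hb
    · exact h1
    · exact h3 b hb

/-- the join of row data and column data -/
def joinD (cb : ℕ → ℕ → Cb) (m M H G : ℕ) (rl : List (ℕ × ℕ)) (cl : List (ℕ × ℕ × ℕ)) : Cb :=
  loop (fun p => loop (stF cb m M H G p) cl) rl

/-- **soundness of the join** -/
theorem joinD_acc {D : ℕ → ℕ → Prop} {cb : ℕ → ℕ → Cb}
    (hcb : ∀ u v, Acc (Agree u v → D u v) (cb u v)) (ys zs : List ℕ) :
    Acc (Join 64 D ys zs) (joinD cb (2 ^ 2048 - 1) ((2 ^ 15 - 1) * rep 16 4096)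
      (2 ^ 15 * rep 16 4096) (2 ^ 65536) (rowsL ys) (colsL zs)) := by
  have h0 : Acc (∀ p ∈ rowsL ys, ∀ q ∈ colsL zs, ∀ i < 32, ∀ j < 128,
      Agree (fld 2048 p.1 i) (laneC q.1 q.2.1 j) → D (fld 2048 p.1 i) (laneC q.1 q.2.1 j))
      (joinD cb (2 ^ 2048 - 1) ((2 ^ 15 - 1) * rep 16 4096) (2 ^ 15 * rep 16 4096) (2 ^ 65536)
        (rowsL ys) (colsL zs)) :=
    loop_acc fun p hp => loop_acc fun q hq => by
      obtain ⟨P, A⟩ := p
      obtain ⟨X, X', B⟩ := q
      exact stF_acc hcb (rowG_rowsL hp) ((colS_all zs).1 _ hq)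
  refine h0.mono fun h => ?_
  intro u hu v hv hag
  obtain ⟨p, hp, i, hi, rfl⟩ := rows_cover hu
  obtain ⟨Z, hZ, j, hj, rfl⟩ := hv
  obtain ⟨q, hq, j', hj', e⟩ := (colS_all zs).2 Z hZ j hj
  rw [e] at hag ⊢
  exact h p hp q hq i hi j' hj' hag

/-- the join of two lists of chunks -/
def joinF (cb : ℕ → ℕ → Cb) (ys zs : List ℕ) : Cb := fun s co =>
  fr 1 hc fun c => fr 2 (mU 32) fun U => fr 3 (mV 32) fun V => fr 4 (rep 16 128) fun R =>
  fr 5 (2 ^ 65536 - 1) fun T => fr 6 (mU 64) fun U' => fr 7 (mV 64) fun V' =>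
  fr 8 (rep (16 * 128) 32) fun R' => fr 9 (2 ^ 2048 - 2 ^ 16) fun m' => fr 10 (2 ^ 2048 - 1) fun m =>
  fr 11 ((2 ^ 15 - 1) * rep 16 4096) fun M => fr 12 (2 ^ 15 * rep 16 4096) fun H =>
  fr 13 (2 ^ 65536) fun G =>
    rowsK c U V R T ys fun rl => colsK c U' V' R' m' zs fun cl => joinD cb m M H G rl cl s co

/-- **soundness of the engine** -/
theorem joinF_acc {D : ℕ → ℕ → Prop} {cb : ℕ → ℕ → Cb}
    (hcb : ∀ u v, Acc (Agree u v → D u v) (cb u v)) (ys zs : List ℕ) :
    Acc (Join 64 D ys zs) (joinF cb ys zs) := by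
  intro s c h
  unfold joinF at h
  simp only [fr_eq] at h
  rw [rowsK_eq, colsK_eq] at h
  exact joinD_acc hcb ys zs s c h

/-! ### chunks of 128 lanes -/

/-- part `q` of a chunk -/
def part (T Y q : ℕ) : ℕ := Nat.land (Nat.shiftRight Y (Nat.mul 65536 q)) T

theorem fld_part' (Y q i : ℕ) (hi : i < 32) :
    fld 2048 (part (2 ^ 65536 - 1) Y q) i = fld 2048 Y (32 * q + i) := fld_part Y q i hi

/-- the row data of a list of chunks of 128 lanes, in continuation form -/
def rows4K (c U V R T : ℕ) (ys : List ℕ) : (List (ℕ × ℕ) → Bool) → Bool :=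
  @List.rec ℕ (fun _ => (List (ℕ × ℕ) → Bool) → Bool) (fun k => k [])
    (fun Y _ ih k =>
      fr Y (part T Y 0) fun P0 => fr Y (rkey c U V R P0) fun A0 =>
      fr Y (part T Y 1) fun P1 => fr P0 (rkey c U V R P1) fun A1 =>
      fr Y (part T Y 2) fun P2 => fr P1 (rkey c U V R P2) fun A2 =>
      fr Y (part T Y 3) fun P3 => fr P2 (rkey c U V R P3) fun A3 =>
        ih fun l => k ((P0, A0) :: (P1, A1) :: (P2, A2) :: (P3, A3) :: l)) ys

/-- part `q` with its key number -/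
def pr (Y q : ℕ) : ℕ × ℕ :=
  (part (2 ^ 65536 - 1) Y q, rkey hc (mU 32) (mV 32) (rep 16 128) (part (2 ^ 65536 - 1) Y q))

theorem rowG_pr (Y q : ℕ) : RowG (pr Y q) := rowG_rkey _

/-- the row data of a list of chunks of 128 lanes -/
def rows4L (ys : List ℕ) : List (ℕ × ℕ) := ys.flatMap fun Y => [pr Y 0, pr Y 1, pr Y 2, pr Y 3]

theorem rows4K_cons (c U V R T Y : ℕ) (ys : List ℕ) (k : List (ℕ × ℕ) → Bool) :
    rows4K c U V R T (Y :: ys) k = rows4K c U V R T ys fun l =>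
      k ((part T Y 0, rkey c U V R (part T Y 0)) :: (part T Y 1, rkey c U V R (part T Y 1)) ::
        (part T Y 2, rkey c U V R (part T Y 2)) :: (part T Y 3, rkey c U V R (part T Y 3)) :: l) := by
  have h : rows4K c U V R T (Y :: ys) k =
      fr Y (part T Y 0) fun P0 => fr Y (rkey c U V R P0) fun A0 =>
      fr Y (part T Y 1) fun P1 => fr P0 (rkey c U V R P1) fun A1 =>
      fr Y (part T Y 2) fun P2 => fr P1 (rkey c U V R P2) fun A2 =>
      fr Y (part T Y 3) fun P3 => fr P2 (rkey c U V R P3) fun A3 =>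
        rows4K c U V R T ys fun l =>
          k ((P0, A0) :: (P1, A1) :: (P2, A2) :: (P3, A3) :: l) := rfl
  rw [h]
  simp only [fr_eq]

theorem rows4K_eq (ys : List ℕ) (k : List (ℕ × ℕ) → Bool) :
    rows4K hc (mU 32) (mV 32) (rep 16 128) (2 ^ 65536 - 1) ys k = k (rows4L ys) := by
  induction ys generalizing k with
  | nil => rfl
  | cons Y ys ih =>
    rw [rows4K_cons, ih]
    rfl

theorem rowG_rows4L {ys : List ℕ} {p : ℕ × ℕ} (hp : p ∈ rows4L ys) : RowG p := by
  unfold rows4L at hp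
  rw [List.mem_flatMap] at hp
  obtain ⟨Y, -, hp⟩ := hp
  rw [List.mem_cons, List.mem_cons, List.mem_cons, List.mem_cons] at hp
  rcases hp with hp | hp | hp | hp | hp
  · rw [hp]; exact rowG_pr Y 0
  · rw [hp]; exact rowG_pr Y 1
  · rw [hp]; exact rowG_pr Y 2
  · rw [hp]; exact rowG_pr Y 3
  · exact absurd hp List.not_mem_nil

theorem rows4_cover {ys : List ℕ} {Y i : ℕ} (hY : Y ∈ ys) (hi : i < 128) :
    ∃ p ∈ rows4L ys, ∃ i' < 32, fld 2048 Y i = fld 2048 p.1 i' := by
  have hq : ∀ q, pr Y q ∈ rows4L ys → 32 * q ≤ i → i < 32 * q + 32 →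
      ∃ p ∈ rows4L ys, ∃ i' < 32, fld 2048 Y i = fld 2048 p.1 i' := by
    intro q hp h1 h2
    refine ⟨pr Y q, hp, i - 32 * q, by omega, ?_⟩
    have h3 := fld_part' Y q (i - 32 * q) (by omega)
    rw [show 32 * q + (i - 32 * q) = i by omega] at h3
    exact h3.symm
  have hm : ∀ q, q < 4 → pr Y q ∈ rows4L ys := by
    intro q hq4
    unfold rows4L
    rw [List.mem_flatMap]
    refine ⟨Y, hY, ?_⟩
    rw [List.mem_cons, List.mem_cons, List.mem_cons, List.mem_cons]
    have h : q = 0 ∨ q = 1 ∨ q = 2 ∨ q = 3 := by omega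
    rcases h with rfl | rfl | rfl | rfl
    · exact Or.inl rfl
    · exact Or.inr (Or.inl rfl)
    · exact Or.inr (Or.inr (Or.inl rfl))
    · exact Or.inr (Or.inr (Or.inr (Or.inl rfl)))
  exact hq (i / 32) (hm _ (by omega)) (by omega) (by omega)

/-- half `q` of a chunk of 128 lanes, `T = 2 ^ 131072 - 1` -/
def half (T Z q : ℕ) : ℕ := Nat.land (Nat.shiftRight Z (Nat.mul 131072 q)) T

theorem fld_half (Z q j : ℕ) (hj : j < 64) :
    fld 2048 (half (2 ^ 131072 - 1) Z q) j = fld 2048 Z (64 * q + j) := by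
  have e : half (2 ^ 131072 - 1) Z q = (Z >>> (131072 * q)) &&& (2 ^ 131072 - 1) := rfl
  rw [e]
  refine Nat.eq_of_testBit_eq fun t => ?_
  by_cases ht : t < 2048
  · rw [testBit_fld ht, testBit_fld ht, Nat.testBit_and, Nat.testBit_shiftRight,
      Nat.testBit_two_pow_sub_one, decide_eq_true (by omega), Bool.and_true]
    congr 1
    ring
  · rw [testBit_fld_ge (Nat.not_lt.1 ht), testBit_fld_ge (Nat.not_lt.1 ht)]

theorem laneC_half {Z j : ℕ} (hj : j < 128) :
    laneC (half (2 ^ 131072 - 1) Z 0) (half (2 ^ 131072 - 1) Z 1) j = fld 2048 Z j := by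
  by_cases h : j < 64
  · rw [laneC_left h, fld_half Z 0 j h, Nat.mul_zero, Nat.zero_add]
  · obtain ⟨j', rfl⟩ : ∃ j', j = 64 + j' := ⟨j - 64, by omega⟩
    rw [laneC_right, fld_half Z 1 j' (by omega), Nat.mul_one]

/-- the column data of a list of chunks of 128 lanes, in continuation form:
`T' = 2 ^ 131072 - 1` -/
def cols1K (c U V R m T' : ℕ) (zs : List ℕ) : (List (ℕ × ℕ × ℕ) → Bool) → Bool :=
  @List.rec ℕ (fun _ => (List (ℕ × ℕ × ℕ) → Bool) → Bool) (fun k => k [])
    (fun Z _ ih k => fr Z (half T' Z 0) fun X => fr Z (half T' Z 1) fun X' =>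
      fr X (ckey c U V m X) fun K => fr X' (ckey c U V m X') fun K' => fr X (bkey R K K') fun B =>
        ih fun l => k ((X, X', B) :: l)) zs

/-- the column data of one chunk of 128 lanes -/
def qr (Z : ℕ) : ℕ × ℕ × ℕ := (half (2 ^ 131072 - 1) Z 0, half (2 ^ 131072 - 1) Z 1,
  bkey (rep (16 * 128) 32) (ck (half (2 ^ 131072 - 1) Z 0)) (ck (half (2 ^ 131072 - 1) Z 1)))

theorem colG_qr (Z : ℕ) : ColG (qr Z) := colG_pair _ _

theorem cols1K_cons (c U V R m T' Z : ℕ) (zs : List ℕ) (k : List (ℕ × ℕ × ℕ) → Bool) :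
    cols1K c U V R m T' (Z :: zs) k = cols1K c U V R m T' zs fun l =>
      k ((half T' Z 0, half T' Z 1, bkey R (ckey c U V m (half T' Z 0))
        (ckey c U V m (half T' Z 1))) :: l) := by
  have h : cols1K c U V R m T' (Z :: zs) k =
      fr Z (half T' Z 0) fun X => fr Z (half T' Z 1) fun X' =>
      fr X (ckey c U V m X) fun K => fr X' (ckey c U V m X') fun K' => fr X (bkey R K K') fun B =>
        cols1K c U V R m T' zs fun l => k ((X, X', B) :: l) := rfl
  rw [h]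
  simp only [fr_eq]

theorem cols1K_eq (zs : List ℕ) (k : List (ℕ × ℕ × ℕ) → Bool) :
    cols1K hc (mU 64) (mV 64) (rep (16 * 128) 32) (2 ^ 2048 - 2 ^ 16) (2 ^ 131072 - 1) zs k =
      k (zs.map qr) := by
  induction zs generalizing k with
  | nil => rfl
  | cons Z zs ih =>
    rw [cols1K_cons, ih, List.map_cons]
    rfl

/-- **soundness of the join**, chunks of 128 lanes -/
theorem joinD_acc128 {D : ℕ → ℕ → Prop} {cb : ℕ → ℕ → Cb}
    (hcb : ∀ u v, Acc (Agree u v → D u v) (cb u v)) (ys zs : List ℕ) :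
    Acc (Join 128 D ys zs) (joinD cb (2 ^ 2048 - 1) ((2 ^ 15 - 1) * rep 16 4096)
      (2 ^ 15 * rep 16 4096) (2 ^ 65536) (rows4L ys) (zs.map qr)) := by
  have h0 : Acc (∀ p ∈ rows4L ys, ∀ q ∈ zs.map qr, ∀ i < 32, ∀ j < 128,
      Agree (fld 2048 p.1 i) (laneC q.1 q.2.1 j) → D (fld 2048 p.1 i) (laneC q.1 q.2.1 j))
      (joinD cb (2 ^ 2048 - 1) ((2 ^ 15 - 1) * rep 16 4096) (2 ^ 15 * rep 16 4096) (2 ^ 65536)
        (rows4L ys) (zs.map qr)) :=
    loop_acc fun p hp => loop_acc fun q hq => by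
      have hq' : ColG q := by
        rw [List.mem_map] at hq
        obtain ⟨Z, -, e⟩ := hq
        rw [← e]
        exact colG_qr Z
      obtain ⟨P, A⟩ := p
      obtain ⟨X, X', B⟩ := q
      exact stF_acc hcb (rowG_rows4L hp) hq'
  refine h0.mono fun h => ?_
  rintro u ⟨Y, hY, i, hi, rfl⟩ v ⟨Z, hZ, j, hj, rfl⟩ hag
  obtain ⟨p, hp, i', hi', e⟩ := rows4_cover hY hi
  have e2 : fld 2048 Z j = laneC (qr Z).1 (qr Z).2.1 j := (laneC_half hj).symm
  rw [e, e2] at hag ⊢
  exact h p hp (qr Z) (List.mem_map_of_mem hZ) i' hi' j hj hag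

/-- the join of two lists of chunks of 128 lanes -/
def joinG (cb : ℕ → ℕ → Cb) (ys zs : List ℕ) : Cb := fun s co =>
  fr 1 hc fun c => fr 2 (mU 32) fun U => fr 3 (mV 32) fun V => fr 4 (rep 16 128) fun R =>
  fr 5 (2 ^ 65536 - 1) fun T => fr 6 (mU 64) fun U' => fr 7 (mV 64) fun V' =>
  fr 8 (rep (16 * 128) 32) fun R' => fr 9 (2 ^ 2048 - 2 ^ 16) fun m' => fr 10 (2 ^ 2048 - 1) fun m =>
  fr 11 ((2 ^ 15 - 1) * rep 16 4096) fun M => fr 12 (2 ^ 15 * rep 16 4096) fun H =>
  fr 13 (2 ^ 65536) fun G => fr 14 (2 ^ 131072 - 1) fun T' =>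
    rows4K c U V R T ys fun rl => cols1K c U' V' R' m' T' zs fun cl => joinD cb m M H G rl cl s co

/-- **soundness of the engine**, chunks of 128 lanes -/
theorem joinG_acc {D : ℕ → ℕ → Prop} {cb : ℕ → ℕ → Cb}
    (hcb : ∀ u v, Acc (Agree u v → D u v) (cb u v)) (ys zs : List ℕ) :
    Acc (Join 128 D ys zs) (joinG cb ys zs) := by
  intro s c h
  unfold joinG at h
  simp only [fr_eq] at h
  rw [rows4K_eq, cols1K_eq] at h
  exact joinD_acc128 hcb ys zs s c h

end Pool.Agent.Helper99.TY
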